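import Pool.Agent.Lib.MP_bdfe25_al.SS.Gd

/-! The product is an even permutation of composite even order `n` or `n - 1`. -/

namespace Pool.Agent.Lib.MP_bdfe25_al.SS

open Equiv Equiv.Perm

variable {n N a b c m r E : ℕ} {s t : ℤˣ}

theorem dvd2 (h : a % 2 = 0) : 2 ∣ a := Nat.dvd_of_mod_eq_zero h

theorem not_bad_odd (h : m % 2 = 1) (h2 : 2 ≤ m) : ¬ Bad n m := fun k => by
  have := (bad_even k h2).1; omega

theorem not_bad_small (h : m + 2 ≤ n) : ¬ Bad n m := by
  rintro (⟨k, -, h⟩ | h) <;> omega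

/-- a full cycle and the identity -/
theorem cyc1 (h : 2 ≤ m) : RS m m 1 m ((-1) ^ (m + 1)) 1 := by
  have h1 : Sup m 1 m := ⟨Multiset.replicate m 1, fun x hx => by
    rw [Multiset.eq_of_mem_replicate hx], by simp,
    lcm_eq (fun x hx => by rw [Multiset.eq_of_mem_replicate hx])
      (Multiset.mem_replicate.2 ⟨by omega, rfl⟩), by simp⟩
  have h2 := full_of_sup (sup_one (x := m) (by omega)) h1 h (by omega) (by omega) (by omega)
  rwa [par_one (m := m + m) (by omega)] at h2

theorem cyc_even (h : 2 ≤ m) (p : m % 2 = 0) : RS m m 1 m (-1) 1 := by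
  have h1 := cyc1 h
  rwa [par_neg (by omega)] at h1

theorem cyc_odd (h : 2 ≤ m) (p : m % 2 = 1) : RS m m 1 m 1 1 := by
  have h1 := cyc1 h
  rwa [par_one (by omega)] at h1

theorem pieceE (hE : E % 2 = 0) (h2 : 2 ≤ E) : ∃ b', b' ∣ 2 ∧ RS E 2 b' E (-1) 1 := by
  by_cases h : E = 2
  · subst h; exact ⟨1, by decide, rs_212⟩
  · refine ⟨2, dvd_rfl, full_gd (gd_even rfl le_rfl h2) (gd_even' rfl le_rfl (by omega)) le_rfl
      (by omega) (by rw [par_neg (by omega)]; simp) (by omega)⟩

theorem addE {e : ℤˣ} (h : RS N a b r e e) (ha : a % 2 = 0) (hb : b % 2 = 0) (H : Sp c r E)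
    (s : ℤˣ) : RS (N + E + 2) a b c s s := by
  obtain ⟨b', h1, h2⟩ := pieceE H.hE (by have := H.lin; omega)
  have h3 := h.add h2
  rw [Nat.lcm_eq_left (dvd2 ha), Nat.lcm_eq_left (h1.trans (dvd2 hb)), H.lcm] at h3
  have h4 := h3.flip_ac ha H.hc
  have h5 := flip_bc h3 hb H.hc
  rcases Int.units_eq_one_or s with rfl | rfl <;> rcases Int.units_eq_one_or e with rfl | rfl <;>
    first | simpa using h4 | simpa using h5

theorem r_eeo (ha : a % 2 = 0) (hb : b % 2 = 0) (hr : r % 2 = 1) (a2 : 2 ≤ a) (b2 : 2 ≤ b)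
    (r2 : 2 ≤ r) (h1 : a ≤ N) (h2 : b ≤ N) (h3 : r ≤ N) : ∃ e, RS N a b r e e := by
  refine signs_eq ((sharp a2 b2 r2 h1 h2 h3).2 ?_) hr
  have := not_bad_odd (n := N) hr r2
  simp only [Nat.odd_iff]
  rintro (h | h | h | h)
  · omega
  · omega
  · omega
  · exact this h.2.2

theorem r_eoo (ha : a % 2 = 0) (hb : b % 2 = 1) (hr : r % 2 = 1) (a2 : 2 ≤ a) (b2 : 2 ≤ b)
    (r2 : 2 ≤ r) (h1 : a + 2 ≤ N) (h2 : b ≤ N) (h3 : r ≤ N) : RS N a b r 1 1 := by
  have h : R N a b r := by
    refine (sharp a2 b2 r2 (by omega) h2 h3).2 ?_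
    have := not_bad_small h1
    simp only [Nat.odd_iff]
    rintro (h | h | h | h)
    · exact this h.1
    · omega
    · omega
    · exact this h.1
  simpa using p312 (signs_odd h.rot hb hr)

theorem caseP (H : Sp c r E) (hn : r + E + 2 ≤ n) (h1 : c ≤ n) (h2 : n ≤ c + 1) (ha : a % 2 = 0)
    (hb : b % 2 = 0) (a2 : 2 ≤ a) (hab : a ≤ b) (hbn : b + 2 ≤ n)
    (hx : ¬ (n = 7 ∧ a = 4 ∧ b = 4 ∧ s = -1)) : RS n a b c s s := by
  have ⟨hr, h3, hE, hc, hl, lin⟩ := H
  by_cases k1 : E + r + 2 ≤ b
  · have h := p132 (full_gd (gd_even ha a2 hab) (H.pos (N := b) (by omega) (by omega)) a2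
      (by omega) (by rw [par_neg (by omega)]; simp) (by omega))
    rw [mul_one] at h
    exact (both h ha hb s).mono hbn
  by_cases k2 : E + r ≤ b
  · by_cases k3 : a + 2 ≤ b
    · have h := p132 (full_gd (gd_even' ha a2 k3) (H.neg (N := b) (by omega) (by omega)) a2
        (by omega) (by rw [par_neg (by omega)]; simp) (by omega))
      rw [one_mul] at h
      rcases Int.units_eq_one_or s with rfl | rfl
      · simpa using (flip_bc h hb hc).mono hbn
      · exact (h.flip_ac ha hc).mono hbn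
    · have h := p132 (near_gd (N := b) (gd_even ha a2 (by omega))
        (H.pos (N := b + 1) (by omega) (by omega)) a2
        (by omega) (by rw [par_neg (by omega)]; simp) (by omega) (by omega))
      rw [mul_one] at h
      by_cases k4 : b + 3 ≤ n
      · exact (both h ha hb s).mono k4
      rcases Int.units_eq_one_or s with rfl | rfl
      · obtain ⟨rfl, rfl, rfl, rfl⟩ : a = 8 ∧ b = 8 ∧ c = 10 ∧ n = 10 := by omega
        exact w2
      · exact h.mono (by omega)
  by_cases k3 : b + E + 2 ≤ n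
  · obtain ⟨e, h⟩ := r_eeo (N := n - E - 2) ha hb hr a2 (by omega) (by omega) (by omega) (by omega)
      (by omega)
    exact (addE h ha hb H s).mono (by omega)
  obtain ⟨rfl, rfl, rfl⟩ : b = 4 ∧ c = 6 ∧ n = 7 := by omega
  have : a = 2 ∨ a = 4 := by omega
  rcases this with rfl | rfl <;> rcases Int.units_eq_one_or s with rfl | rfl
  · exact w3
  · exact w4
  · exact w5
  · exact absurd ⟨rfl, rfl, rfl, rfl⟩ hx

theorem nat_eoe (ha : a % 2 = 0) (hb : b % 2 = 1) (hE : E % 2 = 0) (a2 : 2 ≤ a) (b2 : 2 ≤ b)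
    (E4 : 4 ≤ E) (h1 : a ≤ N) (h2 : b ≤ N) (h3 : E ≤ N) : RS N a b E (-1) 1 := by
  by_cases k1 : a ≤ E ∧ b ≤ E
  · exact (full_gd (gd_even ha a2 k1.1) (gd_odd hb b2 k1.2) a2 (by omega)
      (by rw [par_neg (by omega)]; simp) (by omega)).mono h3
  by_cases k2 : b ≤ a
  · have h := p312 (full_gd (N := a) (gd_odd hb b2 k2) (gd_even hE (by omega) (by omega)) b2
      (by omega) (by rw [par_neg (by omega)]; simp) (by omega))
    rw [one_mul] at h
    exact h.mono h1
  · have h := p132 (full_gd (N := b) (gd_even ha a2 (by omega)) (gd_even hE (by omega) (by omega))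
      a2 (by omega) (by rw [par_one (by omega)]; simp) (by omega))
    rw [Int.units_mul_self] at h
    exact h.mono h2

theorem caseQ (H : Sp c r E) (hn : r + E + 2 ≤ n) (h1 : c ≤ n) (h2 : n ≤ c + 1) (ha : a % 2 = 0)
    (hb : b % 2 = 1) (a2 : 2 ≤ a) (b2 : 2 ≤ b) (han : a + 2 ≤ n) (hbn : b + 2 ≤ n) :
    RS n a b c 1 1 := by
  have ⟨hr, h3, hE, hc, hl, lin⟩ := H
  by_cases k1 : a ≤ b ∧ E + r ≤ b
  · have h := p132 (full_gd (gd_even ha a2 k1.1) (H.neg (N := b) (by omega) (by omega)) a2
      (by omega) (by rw [par_one (by omega)]; simp) (by omega))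
    rw [Int.units_mul_self] at h
    simpa using (h.flip_ac ha hc).mono hbn
  by_cases k2 : E + r ≤ a
  · have h := p312 (full_gd (N := a) (gd_odd hb b2 (by omega)) (H.neg (by omega) (by omega)) b2
      (by omega) (by rw [par_neg (by omega)]; simp) (by omega))
    rw [one_mul] at h
    simpa using (h.flip_ac ha hc).mono han
  by_cases k3 : a + 1 = E + r
  · have h := p312 (near_gd (N := a) (gd_odd hb b2 (by omega)) (H.neg (by omega) (by omega)) b2
      (by omega) (by rw [par_neg (by omega)]; simp) (by omega) (by omega))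
    rw [one_mul] at h
    simpa using (h.flip_ac ha hc).mono (by omega)
  by_cases k4 : E = 2
  · by_cases k5 : r = 3
    · obtain ⟨rfl, rfl, rfl, rfl⟩ : a = 2 ∧ b = 3 ∧ c = 6 ∧ n = 7 := by omega
      exact w6
    subst k4
    have h := (r_eoo (N := r + 1) ha hb hr a2 b2 (by omega) (by omega) (by omega)
      (by omega)).add rs_212
    rw [Nat.lcm_eq_left (dvd2 ha), Nat.lcm_one_right, hl] at h
    simpa using (h.flip_ac ha hc).mono (by omega)
  · have h := (r_eoo (N := E + r - 2) (a := 2) rfl hb hr le_rfl b2 (by omega) (by omega) (by omega)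
      (by omega)).add (nat_eoe (N := E + r - 2) ha hb hE a2 b2 (by omega) (by omega) (by omega)
        (by omega))
    rw [Nat.lcm_eq_right (dvd2 ha), Nat.lcm_self, hl] at h
    simpa using (h.flip_ac ha hc).mono (by omega)

theorem caseR (H : Sp c r E) (hn : r + E + 2 ≤ n) (h1 : c ≤ n) (h2 : n ≤ c + 1) (b2 : 2 ≤ b)
    (hbn : b + 2 ≤ n ∨ b = c) : RS n c b c 1 1 := by
  have ⟨hr, h3, hE, hc, hl, lin⟩ := H
  by_cases k0 : b = c
  · subst k0
    have h := (full_gd (gd_odd hr (by omega) le_rfl) (gd_odd hr (by omega) le_rfl) (by omega)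
      (by omega) (by rw [par_one (by omega)]; simp) (by omega)).add (plus_all hE (by omega))
    rw [hl] at h
    simpa using h.mono (by omega)
  have hbn' : b + 2 ≤ n := hbn.resolve_right k0
  have addc : ∀ {M : ℕ}, RS M r b r 1 1 → M + E + 2 ≤ n → RS n c b c 1 1 := fun h hM => by
    have h4 := h.add (cyc_even (m := E) (by omega) hE)
    rw [hl, Nat.lcm_one_right] at h4
    simpa using (h4.flip_ac hc hc).mono hM
  rcases Nat.mod_two_eq_zero_or_one b with hb | hb
  · by_cases k1 : E + r + 2 ≤ b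
    · have h := p132 (full_gd (N := b) (H.neg (by omega) (by omega)) (H.pos (by omega) (by omega))
        (by omega) (by omega) (by rw [par_neg (by omega)]; simp) (by omega))
      rw [mul_one] at h
      simpa using (h.flip_ab hc hb).mono hbn'
    by_cases k2 : b = E + r + 1
    · by_cases k3 : b + 3 ≤ n
      · have h := p132 (near_gd (N := b) (H.neg (by omega) (by omega))
          (H.pos (by omega) (by omega)) (by omega) (by omega)
          (by rw [par_neg (by omega)]; simp) (by omega) (by omega))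
        rw [mul_one] at h
        simpa using (h.flip_ab hc hb).mono k3
      · obtain ⟨rfl, rfl, rfl⟩ : b = 8 ∧ c = 10 ∧ n = 10 := by omega
        exact w7
    by_cases k3 : E = 2
    · by_cases k4 : b + 6 ≤ n
      · exact addc (M := n - E - 2) (r_eoo hb hr hr b2 (by omega) (by omega) (by omega) (by omega)
          (by omega)).swap (by omega)
      · have : (b = 6 ∧ c = 10 ∧ 10 ≤ n) ∨ (b = 2 ∧ c = 6 ∧ n = 7) ∨ (b = 4 ∧ c = 6 ∧ n = 7) := by
          omega
        rcases this with ⟨rfl, rfl, h⟩ | ⟨rfl, rfl, rfl⟩ | ⟨rfl, rfl, rfl⟩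
        · exact w8.mono h
        · exact w9
        · exact w10
    · have h := (cyc_odd (m := r) (by omega) hr).add
        (signed (n := n - r) (a := E) (b := b) (c := E) (s := 1) (t := 1) (by omega) b2 (by omega)
          (by omega) (by omega) (by omega) (fun _ => rfl) (fun _ => rfl) (fun _ => by simp))
      rw [hl, Nat.lcm_one_left] at h
      simpa using h.mono (by omega)
  · by_cases k1 : E + r ≤ b
    · have h := p132 (full_gd (N := b) (H.neg (by omega) (by omega)) (H.neg (by omega) (by omega))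
        (by omega) (by omega) (by rw [par_one (by omega)]; simp) (by omega))
      rw [Int.units_mul_self] at h
      simpa using (h.flip_ac hc hc).mono hbn'
    · refine addc (M := n - E - 2) (signs_odd ((sharp (by omega) b2 (by omega) (by omega)
        (by omega) (by omega)).2 ?_) hr hb) (by omega)
      have g1 := not_bad_odd (n := n - E - 2) hr (by omega)
      have g2 := not_bad_odd (n := n - E - 2) hb b2
      tauto

end Pool.Agent.Lib.MP_bdfe25_al.SS
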