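import Pool.Agent.Lib.MP_bdfe25_al.SS.Nec
import Pool.Agent.Lib.MP_bdfe25_al.Glue

/-! Cycle types with few cycles; products that are cycles on all points or on all but one. -/

namespace Pool.Agent.Lib.MP_bdfe25_al.SS

open Equiv Equiv.Perm

variable {n N a b c m r E : ℕ} {s t : ℤˣ}

theorem p132 (h : RS n a b c s t) : RS n a c b s (s * t) := by
  have h1 := h.swap.rot
  rwa [mul_comm] at h1

theorem p312 (h : RS n a b c s t) : RS n c a b (s * t) s := by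
  have h1 := h.rot.rot
  rwa [mul_left_comm, Int.units_mul_self, mul_one] at h1

theorem flip_bc (h : RS N a b c s t) (hb : b % 2 = 0) (hc : c % 2 = 0) :
    RS (N + 2) a b c s (-t) := (h.swap.flip_ac hb hc).swap

/-- a type of order `m` and sign `s` on `N` points with few cycles -/
def Gd (N m : ℕ) (s : ℤˣ) : Prop :=
  ∃ k, Sup N m k ∧ (-1) ^ (N + k) = s ∧ 2 * k ≤ N + 3 ∧ (m ≠ 2 → 2 * k ≤ N + 1)

theorem full_gd (hA : Gd N a s) (hB : Gd N b t) (ha : 2 ≤ a) (hN : 1 ≤ N)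
    (hs : s * t = (-1) ^ (N + 1)) (hne : ¬ (a = 2 ∧ b = 2 ∧ N % 2 = 1)) : RS N a b N s t := by
  obtain ⟨k, k1, rfl, k3, k4⟩ := hA
  obtain ⟨l, l1, rfl, l3, l4⟩ := hB
  rw [← pow_add, par] at hs
  exact full_of_sup k1 l1 ha hN (by omega) (by omega)

theorem big {A : Multiset ℕ} {j : ℕ} (h : ¬ A.lcm ∣ j) : ∃ α ∈ A, ¬ α ∣ j := by
  by_contra h4
  exact h (Multiset.lcm_dvd.mpr fun x hx => by
    by_contra h6
    exact h4 ⟨x, hx, h6⟩)

theorem near_aux {k l : ℕ} (hA : Sup (N + 1) a k) (hB : Sup (N + 1) b l) (ha : 3 ≤ a) (hb : 2 ≤ b)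
    (h : k + l ≤ N + 1) (hp : (k + l) % 2 = (N + 1) % 2) :
    RS (N + 1) a b N ((-1) ^ (N + 1 + k)) ((-1) ^ (N + 1 + l)) := by
  obtain ⟨A, pa, sa, rfl, rfl⟩ := hA
  obtain ⟨B, pb, sb, rfl, rfl⟩ := hB
  obtain ⟨α, hα, h3⟩ := big (A := A) (j := 2) fun h => by
    have := Nat.le_of_dvd (by decide) h; omega
  obtain ⟨β, hβ, h4⟩ := big (A := B) (j := 1) fun h => by
    have := Nat.le_of_dvd (by decide) h; omega
  have a1 := pa α hα
  have b1 := pb β hβ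
  have a3 : 3 ≤ α := by
    by_contra h5
    have : α = 1 ∨ α = 2 := by omega
    rcases this with rfl | rfl <;> exact h3 (by decide)
  have b2 : 2 ≤ β := by
    by_contra h5
    obtain rfl : β = 1 := by omega
    exact h4 dvd_rfl
  obtain ⟨A, rfl⟩ := Multiset.exists_cons_of_mem hα
  obtain ⟨B, rfl⟩ := Multiset.exists_cons_of_mem hβ
  obtain ⟨α, rfl⟩ : ∃ j, α = j + 1 := ⟨α - 1, by omega⟩
  obtain ⟨β, rfl⟩ : ∃ j, β = j + 1 := ⟨β - 1, by omega⟩
  have hc := h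
  have hp' := hp
  have sa' := sa
  have sb' := sb
  rw [Multiset.card_cons, Multiset.card_cons] at hc hp'
  rw [Multiset.sum_cons] at sa' sb'
  obtain ⟨X, _, _, σ, τ, x, t1, t2, t3, -, -⟩ :=
    (fc_all N ((N - 1 - Multiset.card A - Multiset.card B) / 2) α A β B
      ⟨by omega, by omega, fun x hx => pa x (Multiset.mem_cons_of_mem hx),
        fun x hx => pb x (Multiset.mem_cons_of_mem hx), by omega, by omega, by omega,
        by omega⟩).tr.glue fc_one.tr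
  rw [add_zero] at t1 t2
  have h5 := t1.rs t2 t3
  rw [sa, sb, show α + A.sum = N by omega] at h5
  simpa using h5

theorem near_gd (hA : Gd (N + 1) a s) (hB : Gd (N + 1) b t) (ha : 2 ≤ a) (hb : 2 ≤ b)
    (hs : s * t = (-1) ^ (N + 1)) (hne : ¬ (a = 2 ∧ b = 2))
    (h : N % 2 = 1 ∨ (a ≠ 2 ∧ b ≠ 2)) : RS (N + 1) a b N s t := by
  obtain ⟨k, k1, rfl, k3, k4⟩ := hA
  obtain ⟨l, l1, rfl, l3, l4⟩ := hB
  rw [← pow_add, par] at hs
  by_cases h2 : a = 2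
  · exact (near_aux l1 k1 (by omega) ha (by omega) (by omega)).swap
  · exact near_aux k1 l1 (by omega) hb (by omega) (by omega)

theorem gd_odd (h : m % 2 = 1) (h2 : 2 ≤ m) (hN : m ≤ N) : Gd N m 1 :=
  supply h2 hN (Or.inl ⟨h, rfl⟩)

theorem gd_even (h : m % 2 = 0) (h2 : 2 ≤ m) (hN : m ≤ N) : Gd N m (-1) :=
  supply h2 hN (Or.inr (Or.inl ⟨h, rfl⟩))

theorem gd_even' (h : m % 2 = 0) (h2 : 2 ≤ m) (hN : m + 2 ≤ N) : Gd N m 1 :=
  supply h2 (by omega) (Or.inr (Or.inr ⟨h, rfl, hN⟩))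

/-- the splitting of a composite even order -/
structure Sp (c r E : ℕ) : Prop where
  hr : r % 2 = 1
  h3 : 3 ≤ r
  hE : E % 2 = 0
  hc : c % 2 = 0
  lcm : Nat.lcm r E = c
  lin : (E = 2 ∧ c = 2 * r) ∨ (E = 4 ∧ c = 4 * r) ∨ (8 ≤ E ∧ 3 * E + 8 * r ≤ c + 24)

theorem Sp.sup (h : Sp c r E) : Sup (r + E) c 2 := by
  obtain ⟨hr, h3, hE, hc, hl, lin⟩ := h
  refine ⟨{r, E}, ?_, by simp, by simpa [lcm_eq_nat_lcm] using hl, by simp⟩
  intro x hx
  simp only [Multiset.insert_eq_cons, Multiset.mem_cons, Multiset.mem_singleton] at hx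
  omega

theorem Sp.neg (h : Sp c r E) (hN : r + E ≤ N) (hN' : N ≤ c + 1) : Gd N c (-1) := by
  have h0 := h.sup.pad h.hc (2 * ((N - r - E) / 4)) ((N - r - E) % 4)
  obtain ⟨hr, h3, hE, hc, hl, lin⟩ := h
  rw [show r + E + 2 * (2 * ((N - r - E) / 4)) + (N - r - E) % 4 = N by omega] at h0
  exact ⟨_, h0, par_neg (by omega), by omega, fun _ => by omega⟩

theorem Sp.pos (h : Sp c r E) (hN : r + E + 2 ≤ N) (hN' : N ≤ c + 1) : Gd N c 1 := by
  have h0 := h.sup.pad h.hc (2 * ((N - r - E - 2) / 4) + 1) ((N - r - E - 2) % 4)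
  obtain ⟨hr, h3, hE, hc, hl, lin⟩ := h
  rw [show r + E + 2 * (2 * ((N - r - E - 2) / 4) + 1) + (N - r - E - 2) % 4 = N by omega] at h0
  exact ⟨_, h0, par_one (by omega), by omega, fun _ => by omega⟩

theorem exists_sp (hm : m % 2 = 0) (h2 : 2 ≤ m) (hmn : m ≤ n) (hn : n ≤ m + 1) (h : ¬ Bad n m) :
    ∃ r E, Sp m r E ∧ r + E + 2 ≤ n := by
  obtain ⟨r, E, a1, a2, a3, a4, a5, a6, -, a8⟩ := decomp (Nat.even_iff.2 hm) h2 hmn hn h
  refine ⟨r, E, ⟨Nat.odd_iff.1 a1, a2, Nat.even_iff.1 a3, hm, a5, ?_⟩, a6⟩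
  rcases a8 with rfl | rfl | a8
  · exact Or.inl ⟨rfl, a4⟩
  · exact Or.inr (Or.inl ⟨rfl, a4⟩)
  · refine Or.inr (Or.inr ⟨a8, ?_⟩)
    obtain ⟨u, rfl⟩ := Nat.exists_eq_add_of_le a8
    obtain ⟨v, rfl⟩ := Nat.exists_eq_add_of_le a2
    rw [a4]
    nlinarith [Nat.zero_le (u * v)]

/-- order `m` and sign `s` occur on `n` points -/
def Av (n m : ℕ) (s : ℤˣ) : Prop := (Odd m → s = 1) ∧ (Bad n m → s = -1)

theorem Av.gd (h : Av N m s) (h2 : 2 ≤ m) (hN : m ≤ N) : Gd N m s := by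
  rcases Nat.mod_two_eq_zero_or_one m with p | p
  · rcases Int.units_eq_one_or s with rfl | rfl
    · by_cases k : m + 2 ≤ N
      · exact gd_even' p h2 k
      · obtain ⟨r, E, h3, h4⟩ := exists_sp p h2 hN (by omega) fun hb => absurd (h.2 hb) (by decide)
        exact h3.pos h4 (by omega)
    · exact gd_even p h2 hN
  · rw [h.1 (Nat.odd_iff.2 p)]
    exact gd_odd p h2 hN

theorem bad_even (h : Bad n m) (h2 : 2 ≤ m) : m % 2 = 0 ∧ n ≤ m + 1 := by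
  rcases h with ⟨k, rfl, h⟩ | ⟨rfl, rfl⟩
  · rcases k with _ | k
    · simp at h2
    · exact ⟨by rw [pow_succ]; omega, h⟩
  · decide

theorem signs_odd (h : R n a b c) (ha : a % 2 = 1) (hb : b % 2 = 1) : RS n a b c 1 1 := by
  obtain ⟨x, y, h1, h2, h3⟩ := h
  exact ⟨x, y, h1, h2, h3, sign_odd (Nat.odd_iff.2 ha) (h1 ▸ pow_orderOf_eq_one _),
    sign_odd (Nat.odd_iff.2 hb) (h2 ▸ pow_orderOf_eq_one _)⟩

theorem signs_eq (h : R n a b c) (hc : c % 2 = 1) : ∃ e, RS n a b c e e := by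
  obtain ⟨x, y, h1, h2, h3⟩ := h
  have h4 : sign (x * y) = 1 := sign_odd (Nat.odd_iff.2 hc) (h3 ▸ pow_orderOf_eq_one _)
  rw [Perm.sign_mul] at h4
  refine ⟨_, x, y, h1, h2, h3, rfl, ?_⟩
  rcases Int.units_eq_one_or (sign x) with k | k <;>
    rcases Int.units_eq_one_or (sign y) with l | l <;> simp_all

/-- two involutions with a product of odd order -/
theorem dih (hc : c % 2 = 1) (h3 : 3 ≤ c) : RS c 2 2 c ((-1) ^ (c / 2)) ((-1) ^ (c / 2)) := by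
  have h := (sup_one (x := 2) (by omega)).pad rfl ((c - 3) / 2) 1
  rw [show 2 + 2 * ((c - 3) / 2) + 1 = c by omega] at h
  have h1 := full_of_sup h h le_rfl (by omega) (by omega) (by omega)
  rwa [(par (n := c / 2)).2 (by omega)] at h1

theorem both {e : ℤˣ} (h : RS N a b c e e) (ha : a % 2 = 0) (hb : b % 2 = 0) (s : ℤˣ) :
    RS (N + 2) a b c s s := by
  have h1 := h.mono (Nat.le_add_right N 2)
  have h2 := h.flip_ab ha hb
  rcases Int.units_eq_one_or s with rfl | rfl <;> rcases Int.units_eq_one_or e with rfl | rfl <;>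
    first | exact h1 | simpa using h2

theorem dih_all (hc : c % 2 = 1) (h3 : 3 ≤ c) (hn : c ≤ n)
    (h : ¬ (IsPrimePow c ∧ n ≤ c + 1 ∧ s ≠ (-1) ^ (c / 2))) : RS n 2 2 c s s := by
  by_cases h1 : s = (-1) ^ (c / 2)
  · rw [h1]; exact (dih hc h3).mono hn
  by_cases h2 : c + 2 ≤ n
  · exact (both (dih hc h3) rfl rfl s).mono h2
  have h4 : ¬ IsPrimePow c := fun k => h ⟨k, by omega, h1⟩
  have pp : (Nat.minFac c).Prime := Nat.minFac_prime (by omega)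
  obtain ⟨k, q, hq, hk⟩ := Nat.exists_eq_pow_mul_and_not_dvd (n := c) (by omega) _ pp.ne_one
  have k0 : k ≠ 0 := by
    rintro rfl
    rw [pow_zero, one_mul] at hk
    exact hq (hk ▸ Nat.minFac_dvd c)
  have q1 : q ≠ 1 := by
    rintro rfl
    exact h4 ((isPrimePow_nat_iff c).2 ⟨_, k, pp, by omega, by simpa using hk.symm⟩)
  have co : Nat.Coprime (c.minFac ^ k) q := ((Nat.Prime.coprime_iff_not_dvd pp).2 hq).pow_left k
  have p1 : c.minFac ^ k ≠ 1 := fun e => pp.ne_one ((Nat.pow_eq_one.1 e).resolve_right k0)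
  generalize c.minFac ^ k = P at *
  have od : Odd (P * q) := hk ▸ Nat.odd_iff.2 hc
  have oP := Nat.odd_iff.1 (Nat.odd_mul.1 od).1
  have oq := Nat.odd_iff.1 (Nat.odd_mul.1 od).2
  have h5 := (dih oP (by omega)).add (dih oq (by omega))
  rw [co.lcm_eq_mul, ← hk, Nat.lcm_self] at h5
  refine (both h5 rfl rfl s).mono (le_trans ?_ hn)
  obtain ⟨u, rfl⟩ : ∃ u, P = u + 3 := ⟨P - 3, by omega⟩
  obtain ⟨v, rfl⟩ : ∃ v, q = v + 3 := ⟨q - 3, by omega⟩
  rw [hk]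
  nlinarith [Nat.zero_le (u * v)]

end Pool.Agent.Lib.MP_bdfe25_al.SS
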