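import Pool.Agent.Results.MP_bdfe25_al.SignedSharp

/-! The statements of the earlier hand-ins, and of the posed question, follow from `result`. -/

namespace Pool.Agent.Lib.MP_bdfe25_al.SS.Impl

open Equiv Pool.Agent.Results.MP_bdfe25_al.SignedSharp

theorem not_forced {n m : ℕ} (h : m + 2 ≤ n) : ¬ Forced n m := by
  rintro (⟨k, -, h⟩ | h) <;> omega

theorem exc_shape {n a b c : ℕ} {s t : ℤˣ} (h : Exceptional n a b c s t) :
    (a = 2 ∧ b = 2 ∧ c % 2 = 1 ∧ n ≤ c + 1) ∨ (a = 4 ∧ b = 4 ∧ c = 6 ∧ n = 7) := by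
  obtain ⟨rfl, -, h | h⟩ := h
  · exact Or.inl ⟨h.1, h.1, Nat.odd_iff.1 h.2.1, h.2.2.2.1⟩
  · exact Or.inr ⟨h.1, h.1, h.2.1, h.2.2.1⟩

/-- the statement of the hand-in Signed -/
theorem signed (n a b c : ℕ) (ha : 1 < a) (hb : 1 < b) (hc : 1 < c) (han : a ≤ n - 2)
    (hbn : b ≤ n - 2) (hcn : c ≤ n - 2) (s t : ℤˣ) :
    (∃ σ τ : Perm (Fin n), orderOf σ = a ∧ orderOf τ = b ∧ orderOf (σ * τ) = c ∧
      Perm.sign σ = s ∧ Perm.sign τ = t) ↔
    ((Odd a → s = 1) ∧ (Odd b → t = 1) ∧ (Odd c → s * t = 1)) := by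
  rw [result n a b c ha hb hc (by omega) (by omega) (by omega)]
  constructor
  · rintro ⟨⟨h1, h2, h3⟩, -⟩
    exact ⟨h1.1, h2.1, h3.1⟩
  · rintro ⟨h1, h2, h3⟩
    refine ⟨⟨⟨h1, fun h => absurd h (not_forced (by omega))⟩,
      ⟨h2, fun h => absurd h (not_forced (by omega))⟩,
      ⟨h3, fun h => absurd h (not_forced (by omega))⟩⟩, ?_⟩
    rintro (h | h | h) <;> have := exc_shape h <;> omega

/-- the posed question Q1 (known): all three signs equal to `1` -/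
theorem q1 (n a b c : ℕ) (ha : 1 < a) (hb : 1 < b) (hc : 1 < c) (han : a ≤ n - 2)
    (hbn : b ≤ n - 2) (hcn : c ≤ n - 2) :
    ∃ σ τ : Perm (Fin n), orderOf σ = a ∧ orderOf τ = b ∧ orderOf (σ * τ) = c := by
  obtain ⟨x, y, h1, h2, h3, -⟩ := (signed n a b c ha hb hc han hbn hcn 1 1).2 (by simp)
  exact ⟨x, y, h1, h2, h3⟩

theorem occ_two {n c : ℕ} (hc : 1 < c) (hn : c ≤ n) (h : c % 2 = 1) :
    Occurs n 2 ((-1) ^ (c / 2)) := by
  refine ⟨fun k => absurd k (by decide), fun k => ?_⟩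
  have := (bad_even k le_rfl).2
  obtain rfl : c = 3 := by omega
  rfl

theorem occ_odd {n c : ℕ} (hc : 1 < c) (h : c % 2 = 1) : Occurs n c 1 :=
  ⟨fun _ => rfl, fun k => absurd k (not_bad_odd h hc)⟩

theorem occ7 : Occurs 7 4 1 ∧ Occurs 7 6 1 := by
  refine ⟨⟨fun _ => rfl, fun k => absurd k (not_forced (by omega))⟩, fun _ => rfl, ?_⟩
  rintro (⟨k, h, -⟩ | h)
  · have h3 : 3 ∣ 2 ^ k := h ▸ by decide
    exact absurd (Nat.Prime.dvd_of_dvd_pow Nat.prime_three h3) (by decide)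
  · omega

theorem good22 {n c : ℕ} (hc : 1 < c) (hn : c ≤ n) (h : c % 2 = 1) :
    ∃ x y : Perm (Fin n), orderOf x = 2 ∧ orderOf y = 2 ∧ orderOf (x * y) = c := by
  obtain ⟨x, y, h1, h2, h3, -⟩ := (result n 2 2 c (by omega) (by omega) hc (by omega) (by omega) hn
    ((-1) ^ (c / 2)) ((-1) ^ (c / 2))).2 ⟨⟨occ_two hc hn h, occ_two hc hn h,
      (Int.units_mul_self _).symm ▸ occ_odd hc h⟩, by
        rintro (⟨-, -, k | k⟩ | k | k)
        · exact k.2.2.2.2 rfl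
        · omega
        · have := exc_shape k; omega
        · have := exc_shape k; omega⟩
  exact ⟨x, y, h1, h2, h3⟩

theorem good446 : ∃ x y : Perm (Fin 7), orderOf x = 4 ∧ orderOf y = 4 ∧ orderOf (x * y) = 6 := by
  obtain ⟨x, y, h1, h2, h3, -⟩ := (result 7 4 4 6 (by omega) (by omega) (by omega) (by omega)
    (by omega) (by omega) 1 1).2 ⟨⟨occ7.1, occ7.1, occ7.2⟩, by
        rintro (⟨-, -, k | k⟩ | k | k)
        · omega
        · exact absurd k.2.2.2 (by decide)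
        · have := exc_shape k; omega
        · have := exc_shape k; omega⟩
  exact ⟨x, y, h1, h2, h3⟩

theorem choose_signs {a1 a2 b1 b2 c1 c2 : Prop} (da : a1 → ¬ a2) (db : b1 → ¬ b2)
    (dc : c1 → ¬ c2)
    (h : ¬ ((a2 ∧ b1 ∧ c1) ∨ (a1 ∧ b2 ∧ c1) ∨ (a1 ∧ b1 ∧ c2) ∨ (a2 ∧ b2 ∧ c2))) :
    ∃ s t : ℤˣ, ((a1 → s = 1) ∧ (a2 → s = -1)) ∧ ((b1 → t = 1) ∧ (b2 → t = -1)) ∧
      ((c1 → s * t = 1) ∧ (c2 → s * t = -1)) := by
  by_cases a1 <;> by_cases a2 <;> by_cases b1 <;> by_cases b2 <;> by_cases c1 <;> by_cases c2 <;>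
    first
      | (refine ⟨1, 1, ?_⟩; simp [*]; done)
      | (refine ⟨1, -1, ?_⟩; simp [*]; done)
      | (refine ⟨-1, 1, ?_⟩; simp [*]; done)
      | (refine ⟨-1, -1, ?_⟩; simp [*]; done)
      | (exfalso; simp_all)

/-- the statement of the hand-in SharpRange -/
theorem sharpRange (n a b c : ℕ) (ha : 1 < a) (hb : 1 < b) (hc : 1 < c) (han : a ≤ n)
    (hbn : b ≤ n) (hcn : c ≤ n) :
    (∃ σ τ : Equiv.Perm (Fin n), orderOf σ = a ∧ orderOf τ = b ∧ orderOf (σ * τ) = c) ↔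
      ¬ ((Forced n a ∧ Odd b ∧ Odd c) ∨ (Odd a ∧ Forced n b ∧ Odd c) ∨
        (Odd a ∧ Odd b ∧ Forced n c) ∨ (Forced n a ∧ Forced n b ∧ Forced n c)) := by
  constructor
  · rintro ⟨x, y, h1, h2, h3⟩ h
    obtain ⟨⟨k1, k2, k3⟩, -⟩ :=
      (result n a b c ha hb hc han hbn hcn _ _).1 ⟨x, y, h1, h2, h3, rfl, rfl⟩
    rcases h with ⟨l1, l2, l3⟩ | ⟨l1, l2, l3⟩ | ⟨l1, l2, l3⟩ | ⟨l1, l2, l3⟩
    · have := k3.1 l3; rw [k1.2 l1, k2.1 l2] at this; exact absurd this (by decide)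
    · have := k3.1 l3; rw [k1.1 l1, k2.2 l2] at this; exact absurd this (by decide)
    · have := k3.2 l3; rw [k1.1 l1, k2.1 l2] at this; exact absurd this (by decide)
    · have := k3.2 l3; rw [k1.2 l1, k2.2 l2] at this; exact absurd this (by decide)
  · intro h
    by_cases e1 : (a = 2 ∧ b = 2 ∧ c % 2 = 1 ∧ n ≤ c + 1) ∨ (a = 4 ∧ b = 4 ∧ c = 6 ∧ n = 7)
    · rcases e1 with ⟨rfl, rfl, k, -⟩ | ⟨rfl, rfl, rfl, rfl⟩
      · exact good22 hc hcn k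
      · exact good446
    by_cases e2 : (b = 2 ∧ c = 2 ∧ a % 2 = 1 ∧ n ≤ a + 1) ∨ (b = 4 ∧ c = 4 ∧ a = 6 ∧ n = 7)
    · rcases e2 with ⟨rfl, rfl, k, -⟩ | ⟨rfl, rfl, rfl, rfl⟩
      · exact R.rot (R.rot (good22 ha han k))
      · exact R.rot (R.rot good446)
    by_cases e3 : (c = 2 ∧ a = 2 ∧ b % 2 = 1 ∧ n ≤ b + 1) ∨ (c = 4 ∧ a = 4 ∧ b = 6 ∧ n = 7)
    · rcases e3 with ⟨rfl, rfl, k, -⟩ | ⟨rfl, rfl, rfl, rfl⟩
      · exact R.rot (good22 hb hbn k)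
      · exact R.rot good446
    have key : ∃ s t : ℤˣ, Occurs n a s ∧ Occurs n b t ∧ Occurs n c (s * t) := by
      have d : ∀ {m : ℕ}, 1 < m → Odd m → ¬ Forced n m := fun h1 h2 =>
        not_bad_odd (Nat.odd_iff.1 h2) h1
      exact choose_signs (d ha) (d hb) (d hc) h
    obtain ⟨s, t, k⟩ := key
    obtain ⟨x, y, h1, h2, h3, -⟩ := (result n a b c ha hb hc han hbn hcn s t).2 ⟨k, by
      rintro (k | k | k)
      · exact e1 (exc_shape k)
      · exact e2 (exc_shape k)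
      · exact e3 (exc_shape k)⟩
    exact ⟨x, y, h1, h2, h3⟩

/-- `Occurs` says what its name says. -/
theorem occurs_iff {n m : ℕ} (h1 : 1 < m) (hn : m ≤ n) (s : ℤˣ) :
    Occurs n m s ↔ ∃ x : Perm (Fin n), orderOf x = m ∧ Perm.sign x = s := by
  constructor
  · intro h
    obtain ⟨k, ⟨A, pa, sa, la, ca⟩, hs, -⟩ := Av.gd (N := n) h h1 hn
    have h0 : Sup n m k := ⟨A, pa, sa, la, ca⟩
    have hk : k ≤ n := by rw [← ca, ← sa]; exact card_le_sum' pa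
    have k1 : 1 ≤ k := by
      rcases Nat.eq_zero_or_pos k with rfl | k1
      · rw [Multiset.card_eq_zero] at ca
        rw [ca, Multiset.sum_zero] at sa
        omega
      · exact k1
    have h2 : Sup n ((k ::ₘ Multiset.replicate (n - k) 1).lcm) (n - k + 1) :=
      ⟨_, fun x hx => by
        rcases Multiset.mem_cons.1 hx with rfl | hx
        · exact k1
        · rw [Multiset.eq_of_mem_replicate hx], by simp; omega, rfl, by simp⟩
    obtain ⟨x, -, e1, -, -, e2, -⟩ := full_of_sup h0 h2 h1 (by omega) (by omega) (by omega)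
    exact ⟨x, e1, e2.trans hs⟩
  · rintro ⟨x, rfl, rfl⟩
    exact av_of x h1

end Pool.Agent.Lib.MP_bdfe25_al.SS.Impl
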