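import Pool.Agent.Lib.MP_bdfe25_al.SS.Comp

/-! The exact answer with signs for all orders up to `n`. -/

namespace Pool.Agent.Lib.MP_bdfe25_al.SS

open Equiv Equiv.Perm

variable {n N a b c m r E : ℕ} {s t : ℤˣ}

/-- the exceptional triples, with the two equal orders first -/
def Xc (n a b c : ℕ) (s t : ℤˣ) : Prop :=
  a = b ∧ s = t ∧ ((a = 2 ∧ Odd c ∧ IsPrimePow c ∧ n ≤ c + 1 ∧ s ≠ (-1) ^ (c / 2)) ∨
    (a = 4 ∧ c = 6 ∧ n = 7 ∧ s = -1))

theorem Xc.symm (h : Xc n a b c s t) : Xc n b a c t s := by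
  obtain ⟨rfl, rfl, h⟩ := h
  exact ⟨rfl, rfl, h⟩

/-- all the hypotheses -/
structure Hyp (n a b c : ℕ) (s t : ℤˣ) : Prop where
  a2 : 2 ≤ a
  b2 : 2 ≤ b
  c2 : 2 ≤ c
  an : a ≤ n
  bn : b ≤ n
  cn : c ≤ n
  va : Av n a s
  vb : Av n b t
  vc : Av n c (s * t)
  x1 : ¬ Xc n a b c s t
  x2 : ¬ Xc n b c a t (s * t)
  x3 : ¬ Xc n c a b (s * t) s

theorem e1 (s t : ℤˣ) : t * (s * t) = s := by rw [mul_left_comm, Int.units_mul_self, mul_one]

theorem Hyp.swap (h : Hyp n a b c s t) : Hyp n b a c t s :=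
  ⟨h.b2, h.a2, h.c2, h.bn, h.an, h.cn, h.vb, h.va, mul_comm s t ▸ h.vc, fun k => h.x1 k.symm,
    fun k => h.x3 (mul_comm t s ▸ k.symm), fun k => h.x2 (mul_comm t s ▸ k.symm)⟩

theorem Hyp.rot (h : Hyp n a b c s t) : Hyp n b c a t (s * t) :=
  ⟨h.b2, h.c2, h.a2, h.bn, h.cn, h.an, h.vb, h.vc, (e1 s t).symm ▸ h.va, h.x2,
    (e1 s t).symm ▸ h.x3, (e1 s t).symm ▸ h.x1⟩

theorem unrot (h : RS n b c a t (s * t)) : RS n a b c s t := by
  have h1 := p312 h
  rwa [e1] at h1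

theorem eq_of_mul_one (h : s * t = 1) : s = t := by
  rcases Int.units_eq_one_or s with rfl | rfl <;> rcases Int.units_eq_one_or t with rfl | rfl <;>
    simp_all

theorem neg_of_mul (h : s * t = -1) : t = -s := by
  rcases Int.units_eq_one_or s with rfl | rfl <;> rcases Int.units_eq_one_or t with rfl | rfl <;>
    simp_all

theorem two_two (h : Hyp n 2 2 c s t) (hc : c % 2 = 1) : RS n 2 2 c s t := by
  obtain rfl := eq_of_mul_one (h.vc.1 (Nat.odd_iff.2 hc))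
  have c2 := h.c2
  exact dih_all hc (by omega) h.cn fun k =>
    h.x1 ⟨rfl, rfl, Or.inl ⟨rfl, Nat.odd_iff.2 hc, k⟩⟩

theorem caseF (h : Hyp n a b n s t) (hs : s * t = (-1) ^ (n + 1)) : RS n a b n s t := by
  by_cases k : a = 2 ∧ b = 2 ∧ n % 2 = 1
  · obtain ⟨rfl, rfl, k⟩ := k
    exact two_two h k
  · have c2 := h.c2
    exact full_gd (h.va.gd h.a2 h.an) (h.vb.gd h.b2 h.bn) h.a2 (by omega) hs k

theorem av_two (hc : 4 ≤ c) (s : ℤˣ) : Gd c 2 s := by
  rcases Int.units_eq_one_or s with rfl | rfl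
  · exact gd_even' rfl le_rfl hc
  · exact gd_even rfl le_rfl (by omega)

theorem near_two (h : Hyp (c + 1) 2 b c s t) (hs : s * t = -1) (hc : c % 2 = 0) (hb : b ≠ 2) :
    RS (c + 1) 2 b c s t := by
  have b2 := h.b2
  have c2 := h.c2
  have bn := h.bn
  by_cases k : b = c + 1
  · subst k
    have ht : t = 1 := h.vb.1 (Nat.odd_iff.2 (by omega))
    refine unrot (unrot (caseF h.rot.rot ?_))
    rw [e1, ht, par_one (by omega)]
  by_cases k1 : Bad c b → t = -1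
  · exact (full_gd (av_two (by omega) s) (Av.gd ⟨h.vb.1, k1⟩ b2 (by omega)) le_rfl (by omega)
      (by rw [hs, par_neg (by omega)]) (by omega)).mono (by omega)
  rw [Classical.not_imp] at k1
  obtain ⟨k1, k2⟩ := k1
  have k3 := bad_even k1 b2
  obtain rfl : b = c := by omega
  rcases k1 with ⟨j, k1, -⟩ | ⟨rfl, -⟩
  · exact absurd (h.vb.2 (Or.inl ⟨j, k1, le_rfl⟩)) k2
  · obtain rfl : t = 1 := (Int.units_eq_one_or t).resolve_right k2
    rw [mul_one] at hs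
    subst hs
    exact w1

theorem caseN (h : Hyp (c + 1) a b c s t) (hs : s * t = (-1) ^ (c + 1)) :
    RS (c + 1) a b c s t := by
  have c2 := h.c2
  by_cases k : a = 2 ∧ b = 2
  · obtain ⟨rfl, rfl⟩ := k
    rcases Nat.mod_two_eq_zero_or_one c with hc | hc
    · by_cases k1 : c = 2
      · subst k1
        have hb : Bad (2 + 1) 2 := Or.inl ⟨1, rfl, le_rfl⟩
        have h1 := h.vc.2 hb
        rw [h.va.2 hb, h.vb.2 hb] at h1
        exact absurd h1 (by decide)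
      · exact (full_gd (av_two (by omega) s) (av_two (by omega) t) le_rfl (by omega) hs
          (by omega)).mono (by omega)
    · exact two_two h hc
  by_cases k1 : c % 2 = 1 ∨ (a ≠ 2 ∧ b ≠ 2)
  · exact near_gd (h.va.gd h.a2 h.an) (h.vb.gd h.b2 h.bn) h.a2 h.b2 hs k k1
  have hc : c % 2 = 0 := by omega
  rw [par_neg (by omega)] at hs
  by_cases k2 : a = 2
  · subst k2
    exact near_two h hs hc (by omega)
  · obtain rfl : b = 2 := by omega
    exact (near_two h.swap (mul_comm s t ▸ hs) hc k2).swap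

theorem caseL (h : Hyp n a b c s t) (hn : n ≤ c + 1) (hs : s * t = (-1) ^ (c + 1)) :
    RS n a b c s t := by
  have cn := h.cn
  by_cases k : n = c
  · subst k; exact caseF h hs
  · obtain rfl : n = c + 1 := by omega
    exact caseN h hs

theorem unnat (h : Av n m s) (hs : s ≠ (-1) ^ (m + 1)) : m % 2 = 0 ∧ s = 1 := by
  rcases Nat.mod_two_eq_zero_or_one m with p | p
  · rw [par_neg (by omega)] at hs
    exact ⟨p, (Int.units_eq_one_or s).resolve_right hs⟩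
  · rw [par_one (by omega)] at hs
    exact absurd (h.1 (Nat.odd_iff.2 p)) hs

theorem caseC (h : Hyp n a b c s t) (hn : n ≤ c + 1) (hc : c % 2 = 0) (hs : s * t = 1)
    (ha : a + 2 ≤ n ∨ (a % 2 = 0 ∧ s = 1)) (hb : b + 2 ≤ n ∨ (b % 2 = 0 ∧ t = 1)) :
    RS n a b c s t := by
  have a2 := h.a2
  have b2 := h.b2
  have an := h.an
  have bn := h.bn
  have cn := h.cn
  have nb : ¬ Bad n c := fun k => absurd (hs ▸ h.vc.2 k) (by decide)
  obtain ⟨r, E, H, hr⟩ := exists_sp hc h.c2 cn hn nb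
  obtain rfl := eq_of_mul_one hs
  by_cases k1 : a + 2 ≤ n
  · by_cases k2 : b + 2 ≤ n
    · rcases Nat.mod_two_eq_zero_or_one a with pa | pa <;>
        rcases Nat.mod_two_eq_zero_or_one b with pb | pb
      · have hx : ¬ (n = 7 ∧ a = 4 ∧ b = 4 ∧ s = -1) := fun k =>
          h.x1 ⟨by omega, rfl, Or.inr ⟨k.2.1, by omega, k.1, k.2.2.2⟩⟩
        rcases le_total a b with k | k
        · exact caseP H hr cn hn pa pb a2 k k2 hx
        · exact (caseP H hr cn hn pb pa b2 k k1 (by tauto)).swap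
      · rw [h.vb.1 (Nat.odd_iff.2 pb)]
        exact caseQ H hr cn hn pa pb a2 b2 k1 k2
      · rw [h.va.1 (Nat.odd_iff.2 pa)]
        exact (caseQ H hr cn hn pb pa b2 a2 k2 k1).swap
      · rw [h.va.1 (Nat.odd_iff.2 pa)]
        refine signs_odd ((sharp a2 b2 h.c2 an bn cn).2 ?_) pa pb
        have g1 := not_bad_small k1
        have g2 := not_bad_small k2
        tauto
    · obtain ⟨pb, rfl⟩ := hb.resolve_left k2
      obtain rfl : b = c := by omega
      exact (caseR H hr cn hn a2 (Or.inl k1)).swap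
  · obtain ⟨pa, rfl⟩ := ha.resolve_left k1
    obtain rfl : a = c := by omega
    exact caseR H hr cn hn b2 (by omega)

theorem Hyp.rs (h : Hyp n a b c s t) : RS n a b c s t := by
  by_cases k1 : n ≤ c + 1 ∧ s * t = (-1) ^ (c + 1)
  · exact caseL h k1.1 k1.2
  by_cases k2 : n ≤ a + 1 ∧ s = (-1) ^ (a + 1)
  · exact unrot (caseL h.rot k2.1 ((e1 s t).trans k2.2))
  by_cases k3 : n ≤ b + 1 ∧ t = (-1) ^ (b + 1)
  · exact unrot (unrot (caseL h.rot.rot k3.1 ((e1 _ _).trans k3.2)))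
  have ua : a + 2 ≤ n ∨ (a % 2 = 0 ∧ s = 1) := by
    by_cases k : a + 2 ≤ n
    · exact Or.inl k
    · exact Or.inr (unnat h.va fun e => k2 ⟨by omega, e⟩)
  have ub : b + 2 ≤ n ∨ (b % 2 = 0 ∧ t = 1) := by
    by_cases k : b + 2 ≤ n
    · exact Or.inl k
    · exact Or.inr (unnat h.vb fun e => k3 ⟨by omega, e⟩)
  have uc : c + 2 ≤ n ∨ (c % 2 = 0 ∧ s * t = 1) := by
    by_cases k : c + 2 ≤ n
    · exact Or.inl k
    · exact Or.inr (unnat h.vc fun e => k1 ⟨by omega, e⟩)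
  by_cases l1 : c + 2 ≤ n
  · by_cases l2 : a + 2 ≤ n
    · by_cases l3 : b + 2 ≤ n
      · exact signed h.a2 h.b2 h.c2 l2 l3 l1 (fun p => h.va.1 (Nat.odd_iff.2 p))
          (fun p => h.vb.1 (Nat.odd_iff.2 p)) fun p => h.vc.1 (Nat.odd_iff.2 p)
      · have u := ub.resolve_left l3
        exact unrot (unrot (caseC h.rot.rot (by omega) u.1 ((e1 _ _).trans u.2) uc
          (by rw [e1]; exact ua)))
    · have u := ua.resolve_left l2
      exact unrot (caseC h.rot (by omega) u.1 ((e1 s t).trans u.2) ub uc)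
  · have u := uc.resolve_left l1
    exact caseC h (by omega) u.1 u.2 ua ub

theorem not_xc (h : RS n a b c s t) : ¬ Xc n a b c s t := by
  rintro ⟨rfl, rfl, ⟨rfl, h1, h2, h3, h4⟩ | ⟨rfl, rfl, rfl, rfl⟩⟩
  · exact h4 (sign_dihedral h h1 h2 h3)
  · exact not_446 h

theorem av_of (x : Perm (Fin n)) (h2 : 1 < orderOf x) : Av n (orderOf x) (sign x) :=
  ⟨fun h => sign_odd h (pow_orderOf_eq_one _), fun h => sign_bad x h2 rfl h⟩

theorem signed_sharp (ha : 1 < a) (hb : 1 < b) (hc : 1 < c) (han : a ≤ n) (hbn : b ≤ n)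
    (hcn : c ≤ n) : RS n a b c s t ↔ (Av n a s ∧ Av n b t ∧ Av n c (s * t)) ∧
      ¬ (Xc n a b c s t ∨ Xc n b c a t (s * t) ∨ Xc n c a b (s * t) s) := by
  constructor
  · intro h
    refine ⟨?_, not_or.2 ⟨not_xc h, not_or.2 ⟨not_xc h.rot, not_xc (p312 h)⟩⟩⟩
    obtain ⟨x, y, rfl, rfl, rfl, rfl, rfl⟩ := h
    exact ⟨av_of x ha, av_of y hb, Perm.sign_mul x y ▸ av_of (x * y) hc⟩
  · rintro ⟨⟨h1, h2, h3⟩, h⟩
    rw [not_or, not_or] at h
    exact Hyp.rs ⟨ha, hb, hc, han, hbn, hcn, h1, h2, h3, h.1, h.2.1, h.2.2⟩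

end Pool.Agent.Lib.MP_bdfe25_al.SS
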