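import Pool.Agent.Lib.MP_bdfe25_al.SS.Spor

/-! The two families of exceptions are really excluded. -/

namespace Pool.Agent.Lib.MP_bdfe25_al.SS

open Equiv Equiv.Perm Finset

variable {n c : ℕ}

theorem type_four (x : Perm (Fin 7)) (h1 : orderOf x = 4) (h2 : sign x = -1) :
    x.cycleType = {4} := by
  obtain ⟨t, t1, t2, t3, t4⟩ := exists_not_dvd x (k := 2) (by rw [h1]; decide)
  rw [h1] at t3
  have t6 := Nat.le_of_dvd (by decide) t3
  obtain rfl : t = 4 := by interval_cases t <;> simp_all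
  obtain ⟨T, hT⟩ := Multiset.exists_cons_of_mem t1
  rcases T.empty_or_exists_mem with rfl | ⟨u, hu⟩
  · simpa using hT
  exfalso
  have u1 : u ∈ x.cycleType := hT ▸ Multiset.mem_cons_of_mem hu
  have u2 := two_le_of_mem_cycleType u1
  have u3 := dvd_of_mem_cycleType u1
  rw [h1] at u3
  obtain ⟨T', rfl⟩ := Multiset.exists_cons_of_mem hu
  have h3 := x.sum_cycleType_le
  rw [hT, Multiset.sum_cons, Multiset.sum_cons, Fintype.card_fin] at h3
  obtain rfl : u = 2 := by
    have : u ≤ 3 := by omega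
    interval_cases u <;> simp_all
  have hle : ({4, 2} : Multiset ℕ) ≤ x.cycleType := by
    rw [hT]
    exact Multiset.cons_le_cons _ (Multiset.singleton_le.2 (Multiset.mem_cons_self _ _))
  rw [sign_of_cycleType, type_eq x hle (by simp)] at h2
  revert h2
  decide

theorem not_446 : ¬ RS 7 4 4 6 (-1) (-1) := by
  rintro ⟨x, y, h1, h2, h3, h4, h5⟩
  set x0 : Perm (Fin 7) := swap 0 3 * swap 0 2 * swap 0 1 with hx0
  have t0 : x0.cycleType = {4} :=
    type_four x0 (ord_of (by decide) (by decide +kernel) (by decide +kernel)) (by decide +kernel)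
  obtain ⟨g, hg⟩ := isConj_iff.1 (isConj_iff_cycleType_eq.2 (t0.trans (type_four x h1 h4).symm))
  obtain ⟨h, hh⟩ := isConj_iff.1 (isConj_iff_cycleType_eq.2 (t0.trans (type_four y h2 h5).symm))
  set k : Perm (Fin 7) := g⁻¹ * h with hk
  have e1 : x * y = g * (x0 * (k * x0 * k⁻¹)) * g⁻¹ := by
    rw [← hg, ← hh, hk]; group
  have e2 : k * x0 * k⁻¹ = swap (k 0) (k 3) * swap (k 0) (k 2) * swap (k 0) (k 1) := by
    rw [hx0, swap_apply_apply, swap_apply_apply, swap_apply_apply]; group
  have e3 : orderOf (x0 * (k * x0 * k⁻¹)) = 6 := by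
    rw [← h3, e1]
    exact ((MulAut.conj g).orderOf_eq _).symm
  rw [e2] at e3
  have ne : ∀ {i j : Fin 7}, i ≠ j → k i ≠ k j := fun hij h => hij (k.injective h)
  rcases chk446 (k 0) (k 1) (k 2) (k 3) (ne (by decide)) (ne (by decide)) (ne (by decide))
    (ne (by decide)) (ne (by decide)) (ne (by decide)) (orderOf_dvd_iff_pow_eq_one.1 e3.dvd)
    with h | h
  · have := orderOf_dvd_of_pow_eq_one h
    rw [e3] at this
    revert this; decide
  · have := orderOf_dvd_of_pow_eq_one h
    rw [e3] at this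
    revert this; decide

theorem type_primePow (z : Perm (Fin n)) (hz : orderOf z = c) (hp : IsPrimePow c)
    (hn : n ≤ c + 1) : z.cycleType = {c} := by
  obtain ⟨p, k, pp, hk, rfl⟩ := (isPrimePow_nat_iff c).1 hp
  obtain ⟨k, rfl⟩ : ∃ j, k = j + 1 := ⟨k - 1, by omega⟩
  obtain ⟨t, t1, -, t3, t4⟩ := exists_not_dvd z (k := p ^ k) fun h => by
    have h1 := Nat.le_of_dvd (pow_pos pp.pos k) h
    rw [hz] at h1
    exact absurd h1 (not_le.2 (Nat.pow_lt_pow_right pp.one_lt (by omega)))
  rw [hz] at t3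
  obtain ⟨j, hj, rfl⟩ := (Nat.dvd_prime_pow pp).1 t3
  have : j = k + 1 := by
    by_contra h
    exact t4 (pow_dvd_pow p (by omega))
  subst this
  exact type_eq z (Multiset.singleton_le.2 t1) (by simpa using hn)

theorem sign_dihedral {s t : ℤˣ} (h : RS n 2 2 c s t) (hc : Odd c) (hp : IsPrimePow c)
    (hn : n ≤ c + 1) : s = (-1) ^ (c / 2) := by
  obtain ⟨x, y, h1, h2, h3, rfl, -⟩ := h
  set z := x * y with hz
  have tz := type_primePow z h3 hp hn
  have cz : z.IsCycle := card_cycleType_eq_one.1 (by rw [tz]; rfl)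
  have sz : z.support.card = c := by rw [← sum_cycleType, tz]; simp
  have xx : x * x = 1 := by rw [← pow_two, ← h1]; exact pow_orderOf_eq_one _
  have yy : y * y = 1 := by rw [← pow_two, ← h2]; exact pow_orderOf_eq_one _
  have xi : x⁻¹ = x := inv_eq_of_mul_eq_one_right xx
  have yi : y⁻¹ = y := inv_eq_of_mul_eq_one_right yy
  have e1 : x * z * x⁻¹ = z⁻¹ := by
    rw [hz, mul_inv_rev, xi, yi, ← mul_assoc, xx, one_mul]
  have e2 : ∀ j : ℕ, x * z ^ j = (z ^ j)⁻¹ * x := fun j => by
    rw [← inv_pow, ← e1, conj_pow, inv_mul_cancel_right]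
  have sub : x.support ⊆ z.support := by
    intro v hv
    by_contra hv'
    have a1 : z v = v := notMem_support.1 hv'
    have a2 : z (x v) = x v := by
      have h := congrArg (fun f : Perm (Fin n) => f v) (e2 1)
      simp only [pow_one, Perm.mul_apply, a1] at h
      rw [Perm.eq_inv_iff_eq] at h
      exact h
    have a3 : (z.supportᶜ).card ≤ 1 := by
      rw [card_compl, Fintype.card_fin, sz]; omega
    exact mem_support.1 hv (card_le_one.1 a3 _ (mem_compl.2 (notMem_support.2 a2)) _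
      (mem_compl.2 hv'))
  have one : (z.support \ x.support).card ≤ 1 := by
    refine card_le_one.2 fun u hu v hv => ?_
    obtain ⟨u1, u2⟩ := mem_sdiff.1 hu
    obtain ⟨v1, v2⟩ := mem_sdiff.1 hv
    have u3 := notMem_support.1 u2
    have v3 := notMem_support.1 v2
    obtain ⟨j, rfl⟩ := cz.exists_pow_eq (mem_support.1 u1) (mem_support.1 v1)
    have h := congrArg (fun f : Perm (Fin n) => f u) (e2 j)
    simp only [Perm.mul_apply, u3, v3] at h
    rw [Perm.eq_inv_iff_eq, ← Perm.mul_apply, ← pow_add] at h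
    have a1 : z ^ (j + j) = 1 := (cz.pow_eq_one_iff' (mem_support.1 u1)).2 h
    have a2 : c ∣ 2 * j := by
      rw [← h3, two_mul]; exact orderOf_dvd_of_pow_eq_one a1
    have a3 : c ∣ j := (Nat.coprime_two_right.2 hc).dvd_of_dvd_mul_left a2
    rw [← h3, orderOf_dvd_iff_pow_eq_one] at a3
    rw [a3]; rfl
  have cs := card_sdiff_add_card_eq_card sub
  obtain ⟨m, hm⟩ := cycleType_prime_order (σ := x) (by rw [h1]; exact Nat.prime_two)
  have sx : x.support.card = (m + 1) * 2 := by
    rw [← sum_cycleType, hm, h1, Multiset.sum_replicate, smul_eq_mul]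
  rw [sign_of_cycleType, sum_cycleType, sx, hm, Multiset.card_replicate]
  rw [Nat.odd_iff] at hc
  rw [show c / 2 = m + 1 by omega, pow_add, mul_comm (m + 1) 2, pow_mul]
  simp

end Pool.Agent.Lib.MP_bdfe25_al.SS
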