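import Pool.Agent.Lib.MP_bdfe25_al.SS.TF

/-! Small explicit pairs, and the one small pair that does not exist. -/

namespace Pool.Agent.Lib.MP_bdfe25_al.SS

open Equiv Equiv.Perm

theorem w1 : RS 7 2 6 6 (-1) 1 :=
  ⟨c[0, 6] * c[1, 4] * c[2, 5], c[0, 5, 6] * c[1, 2] * c[3, 4],
    ord_of (by decide) (by decide +kernel) (by decide +kernel),
    ord_of (by decide) (by decide +kernel) (by decide +kernel),
    ord_of (by decide) (by decide +kernel) (by decide +kernel), by decide +kernel,
    by decide +kernel⟩

theorem w2 : RS 10 8 8 10 1 1 :=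
  ⟨c[0, 7, 8, 9, 6, 2, 1, 3] * c[4, 5], c[0, 9] * c[1, 8, 6, 3, 2, 7, 4, 5],
    ord_of (by decide) (by decide +kernel) (by decide +kernel),
    ord_of (by decide) (by decide +kernel) (by decide +kernel),
    ord_of (by decide) (by decide +kernel) (by decide +kernel), by decide +kernel,
    by decide +kernel⟩

theorem w3 : RS 7 2 4 6 1 1 :=
  ⟨c[0, 2] * c[1, 6], c[0, 1, 4, 6] * c[3, 5],
    ord_of (by decide) (by decide +kernel) (by decide +kernel),
    ord_of (by decide) (by decide +kernel) (by decide +kernel),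
    ord_of (by decide) (by decide +kernel) (by decide +kernel), by decide +kernel,
    by decide +kernel⟩

theorem w4 : RS 7 2 4 6 (-1) (-1) :=
  ⟨c[0, 2] * c[1, 3] * c[4, 6], c[0, 5, 2, 6],
    ord_of (by decide) (by decide +kernel) (by decide +kernel),
    ord_of (by decide) (by decide +kernel) (by decide +kernel),
    ord_of (by decide) (by decide +kernel) (by decide +kernel), by decide +kernel,
    by decide +kernel⟩

theorem w5 : RS 7 4 4 6 1 1 :=
  ⟨c[1, 6, 4, 2] * c[3, 5], c[0, 5] * c[1, 6, 4, 2],
    ord_of (by decide) (by decide +kernel) (by decide +kernel),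
    ord_of (by decide) (by decide +kernel) (by decide +kernel),
    ord_of (by decide) (by decide +kernel) (by decide +kernel), by decide +kernel,
    by decide +kernel⟩

theorem w6 : RS 7 2 3 6 1 1 :=
  ⟨c[0, 4] * c[1, 3], c[2, 6, 5],
    ord_of (by decide) (by decide +kernel) (by decide +kernel),
    ord_of (by decide) (by decide +kernel) (by decide +kernel),
    ord_of (by decide) (by decide +kernel) (by decide +kernel), by decide +kernel,
    by decide +kernel⟩

theorem w7 : RS 10 10 8 10 1 1 :=
  ⟨c[0, 1, 6, 8, 9] * c[2, 5] * c[4, 7], c[0, 7, 2, 8, 6, 3, 1, 4] * c[5, 9],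
    ord_of (by decide) (by decide +kernel) (by decide +kernel),
    ord_of (by decide) (by decide +kernel) (by decide +kernel),
    ord_of (by decide) (by decide +kernel) (by decide +kernel), by decide +kernel,
    by decide +kernel⟩

theorem w8 : RS 10 10 6 10 1 1 :=
  ⟨c[0, 2, 4, 1, 3] * c[5, 6] * c[8, 9], c[0, 4] * c[1, 3, 6, 2, 8, 5],
    ord_of (by decide) (by decide +kernel) (by decide +kernel),
    ord_of (by decide) (by decide +kernel) (by decide +kernel),
    ord_of (by decide) (by decide +kernel) (by decide +kernel), by decide +kernel,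
    by decide +kernel⟩

theorem w9 : RS 7 6 2 6 1 1 :=
  ⟨c[0, 3, 4] * c[1, 5] * c[2, 6], c[0, 1] * c[4, 5],
    ord_of (by decide) (by decide +kernel) (by decide +kernel),
    ord_of (by decide) (by decide +kernel) (by decide +kernel),
    ord_of (by decide) (by decide +kernel) (by decide +kernel), by decide +kernel,
    by decide +kernel⟩

theorem w10 : RS 7 6 4 6 1 1 :=
  ⟨c[0, 4] * c[1, 3, 2] * c[5, 6], c[1, 5] * c[2, 4, 3, 6],
    ord_of (by decide) (by decide +kernel) (by decide +kernel),
    ord_of (by decide) (by decide +kernel) (by decide +kernel),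
    ord_of (by decide) (by decide +kernel) (by decide +kernel), by decide +kernel,
    by decide +kernel⟩

theorem chk446 : ∀ a b c d : Fin 7, a ≠ b → a ≠ c → a ≠ d → b ≠ c → b ≠ d → c ≠ d →
    (swap 0 3 * swap 0 2 * swap 0 1 * (swap a d * swap a c * swap a b)) ^ 6 = 1 →
    (swap 0 3 * swap 0 2 * swap 0 1 * (swap a d * swap a c * swap a b)) ^ 2 = 1 ∨
    (swap 0 3 * swap 0 2 * swap 0 1 * (swap a d * swap a c * swap a b)) ^ 3 = 1 := by
  decide +kernel

end Pool.Agent.Lib.MP_bdfe25_al.SS
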