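import Pool.Agent.Lib.MP_bdfe25_al.RDef

/-! Inserting new points into a cycle. -/

namespace Pool.Agent.Lib.MP_bdfe25_al.SS

open Equiv Equiv.Perm Finset

set_option linter.unusedSectionVars false

variable {α : Type} [Fintype α] [DecidableEq α]

theorem cyc_of {f : Perm α} {S : Finset α} (hm : ∀ v ∈ S, f v ∈ S) {u : α}
    (h : ∀ v ∈ S, f.SameCycle u v) : f.IsCycleOn (S : Set α) := by
  refine ⟨?_, fun v hv w hw => (h v hv).symm.trans (h w hw)⟩
  have hm' : Set.MapsTo f (S : Set α) (S : Set α) := fun v hv => hm v hv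
  exact ((S.finite_toSet).injOn_iff_bijOn_of_mapsTo hm').1 f.injective.injOn

theorem cyc_mem {f : Perm α} {S : Finset α} (hf : f.IsCycleOn (S : Set α)) {v : α} :
    f v ∈ S ↔ v ∈ S := by
  have := hf.apply_mem_iff (x := v)
  simpa using this

theorem sc_step (g : Perm α) (v : α) : g.SameCycle v (g v) := ⟨1, by simp⟩

theorem cyc_congr {f g : Perm α} {S : Finset α} (hf : f.IsCycleOn (S : Set α))
    (h : ∀ v ∈ S, g v = f v) : g.IsCycleOn (S : Set α) := by
  rcases S.eq_empty_or_nonempty with rfl | ⟨u, hu⟩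
  · simp
  refine cyc_of (fun v hv => by rw [h v hv]; exact (cyc_mem hf).2 hv) (u := u) fun v hv => ?_
  obtain ⟨n, -, rfl⟩ := hf.exists_pow_eq hu hv
  clear hv
  induction n with
  | zero => exact SameCycle.rfl
  | succ n ih =>
    have hn : (f ^ n) u ∈ S := hf.1.mapsTo.perm_pow n hu
    rw [pow_succ', Perm.mul_apply, ← h _ hn]
    exact ih.trans (sc_step g _)

theorem ins_one {f : Perm α} {S : Finset α} (hf : f.IsCycleOn (S : Set α)) {u p : α}
    (hu : u ∈ S) (hp : p ∉ S) (hfp : f p = p) :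
    (swap u p * f).IsCycleOn ((insert p S : Finset α) : Set α) := by
  have hgp : (swap u p * f) p = u := by simp [hfp]
  have hstep : ∀ v ∈ S, (swap u p * f).SameCycle v (f v) := fun v hv => by
    by_cases h : f v = u
    · have h1 : (swap u p * f) v = p := by simp [h]
      have := (sc_step (swap u p * f) v).trans (sc_step (swap u p * f) _)
      rw [h1, hgp] at this
      rw [h]
      exact this
    · have h2 : f v ≠ p := fun e => hp (e ▸ (cyc_mem hf).2 hv)
      have h1 : (swap u p * f) v = f v := by simp [swap_apply_of_ne_of_ne h h2]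
      exact h1 ▸ sc_step (swap u p * f) v
  have hall : ∀ n : ℕ, (swap u p * f).SameCycle u ((f ^ n) u) := fun n => by
    induction n with
    | zero => exact SameCycle.rfl
    | succ n ih =>
      rw [pow_succ', Perm.mul_apply]
      exact ih.trans (hstep _ (hf.1.mapsTo.perm_pow n hu))
  refine cyc_of (fun v hv => ?_) (u := u) fun v hv => ?_
  · rcases mem_insert.1 hv with rfl | hv
    · rw [hgp]; exact mem_insert_of_mem hu
    · have h0 : f v ∈ S := (cyc_mem hf).2 hv
      by_cases h : f v = u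
      · simp [h]
      · have h2 : f v ≠ p := fun e => hp (e ▸ h0)
        simp [swap_apply_of_ne_of_ne h h2, h0]
  · rcases mem_insert.1 hv with rfl | hv
    · have := sc_step (swap u v * f) v
      rw [hgp] at this
      exact this.symm
    · obtain ⟨n, -, rfl⟩ := hf.exists_pow_eq hu hv
      exact hall n

theorem attach (u : α) (Q : Finset α) (hu : u ∉ Q) :
    ∃ C : Perm α, (∀ v, v ≠ u → v ∉ Q → C v = v) ∧ sign C = (-1) ^ Q.card ∧
      ∀ (f : Perm α) (S : Finset α), f.IsCycleOn (S : Set α) → u ∈ S → Disjoint S Q →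
        (∀ q ∈ Q, f q = q) → (C * f).IsCycleOn ((S ∪ Q : Finset α) : Set α) := by
  induction Q using Finset.induction_on with
  | empty => exact ⟨1, fun _ _ _ => rfl, by simp, fun f S h _ _ _ => by simpa using h⟩
  | insert p Q hp ih =>
    have hup : u ≠ p := fun e => hu (e ▸ mem_insert_self _ _)
    obtain ⟨C, h1, h2, h3⟩ := ih fun h => hu (mem_insert_of_mem h)
    refine ⟨swap u p * C, fun v hv hQ => ?_, ?_, fun f S hf huS hd hq => ?_⟩
    · have hvp : v ≠ p := fun e => hQ (e ▸ mem_insert_self _ _)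
      rw [Perm.mul_apply, h1 v hv fun h => hQ (mem_insert_of_mem h),
        swap_apply_of_ne_of_ne hv hvp]
    · rw [Perm.sign_mul, sign_swap hup, h2, card_insert_of_notMem hp, pow_succ']
    · have hd' := disjoint_insert_right.1 hd
      have h4 := h3 f S hf huS hd'.2 fun q h => hq q (mem_insert_of_mem h)
      have h5 := ins_one h4 (p := p) (mem_union_left _ huS) (by simp [hd'.1, hp])
        (by rw [Perm.mul_apply, hq p (mem_insert_self _ _), h1 p hup.symm hp])
      rw [mul_assoc, union_insert]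
      exact h5

/-- `g` comes from `f` by inserting the points of `Q` into the cycle `S`. -/
def Ext (f g : Perm α) (S Q : Finset α) : Prop :=
  g.IsCycleOn ((S ∪ Q : Finset α) : Set α) ∧ ∀ v, v ∉ S → v ∉ Q → g v = f v

theorem pair (f g : Perm α) (u : α) (Q : Finset α) (hu : u ∉ Q) (hf : ∀ q ∈ Q, f q = q)
    (hg : ∀ q ∈ Q, g q = q) :
    ∃ f' g' : Perm α, f' * g' = f * g ∧ sign f' = sign f * (-1) ^ Q.card ∧
      sign g' = sign g * (-1) ^ Q.card ∧
      (∀ S : Finset α, f.IsCycleOn (S : Set α) → u ∈ S → Disjoint S Q → Ext f f' S Q) ∧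
      (∀ S : Finset α, g.IsCycleOn (S : Set α) → u ∈ S → Disjoint S Q → Ext g g' S Q) := by
  obtain ⟨C, h1, h2, h3⟩ := attach u Q hu
  refine ⟨f * C⁻¹, C * g, by group, by simp [h2], by simp [h2, mul_comm],
    fun S hS huS hd => ⟨?_, fun v hv hQ => ?_⟩, fun S hS huS hd => ⟨h3 g S hS huS hd hg,
      fun v hv hQ => ?_⟩⟩
  · have := (h3 f⁻¹ S hS.inv huS hd fun q h => by
      rw [Perm.inv_eq_iff_eq, hf q h]).inv
    simpa using this
  · have h4 : C⁻¹ v = v := by
      rw [Perm.inv_eq_iff_eq, h1 v (fun e => hv (e ▸ huS)) hQ]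
    rw [Perm.mul_apply, h4]
  · rw [Perm.mul_apply]
    refine h1 _ (fun e => hv ((cyc_mem hS).1 (e ▸ huS))) fun h => hQ ?_
    have := g.injective (hg _ h)
    exact this ▸ h

theorem pow_agree {f g : Perm α} {T : Finset α} (hg : g.IsCycleOn (T : Set α))
    (h : ∀ v, v ∉ T → g v = f v) {v : α} (hv : v ∉ T) (m : ℕ) :
    (g ^ m) v = (f ^ m) v ∧ (g ^ m) v ∉ T := by
  induction m with
  | zero => exact ⟨rfl, hv⟩
  | succ m ih =>
    rw [pow_succ', pow_succ', Perm.mul_apply, Perm.mul_apply, ← ih.1]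
    exact ⟨h _ ih.2, fun h' => ih.2 ((cyc_mem hg).1 h')⟩

/-- `f` has the cycle `X`; outside it every period divides `a`, and some period there is a
multiple of `E`. -/
structure Dsc (f : Perm α) (X : Finset α) (a E : ℕ) : Prop where
  cyc : f.IsCycleOn (X : Set α)
  per : ∀ v, v ∉ X → (f ^ a) v = v
  wit : E = 1 ∨ ∃ v, v ∉ X ∧ ∀ m, (f ^ m) v = v → E ∣ m

theorem Dsc.inv {f : Perm α} {X : Finset α} {a E : ℕ} (h : Dsc f X a E) : Dsc f⁻¹ X a E := by
  have key : ∀ m v, (f⁻¹ ^ m) v = v ↔ (f ^ m) v = v := fun m v => by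
    rw [inv_pow, Perm.inv_eq_iff_eq, eq_comm]
  refine ⟨h.cyc.inv, fun v hv => (key _ _).2 (h.per v hv), h.wit.imp id ?_⟩
  rintro ⟨v, hv, hm⟩
  exact ⟨v, hv, fun m e => hm m ((key _ _).1 e)⟩

theorem Dsc.grow {f g : Perm α} {X Q : Finset α} {a E : ℕ} (h : Dsc f X a E)
    (hq : ∀ q ∈ Q, f q = q) (e : Ext f g X Q) : Dsc g (X ∪ Q) a E := by
  have ag : ∀ v, v ∉ X ∪ Q → g v = f v := fun v hv =>
    e.2 v (fun h => hv (mem_union_left _ h)) fun h => hv (mem_union_right _ h)
  refine ⟨e.1, fun v hv => ?_, ?_⟩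
  · rw [(pow_agree e.1 ag hv a).1]
    exact h.per v fun h => hv (mem_union_left _ h)
  · rcases h.wit with h1 | ⟨v, hv, hm⟩
    · exact Or.inl h1
    by_cases hQ : v ∈ Q
    · exact Or.inl (Nat.dvd_one.1 (hm 1 (by simpa using hq v hQ)))
    have hv' : v ∉ X ∪ Q := by simp [hv, hQ]
    exact Or.inr ⟨v, hv', fun m hh => hm m (by rwa [(pow_agree e.1 ag hv' m).1] at hh)⟩

theorem Dsc.new {f g : Perm α} {X Q : Finset α} {a E : ℕ} {u : α} (h : Dsc f X a E)
    (hq : ∀ q ∈ Q, f q = q) (hu : f u = u) (huX : u ∉ X) (huQ : u ∉ Q) (hd : Disjoint X Q)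
    (e : Ext f g {u} Q) (ha : Q.card + 1 ∣ a) : Dsc g X a E ∧ Dsc g X a (Q.card + 1) := by
  have ag : ∀ v, v ∉ ({u} : Finset α) ∪ Q → g v = f v := fun v hv =>
    e.2 v (fun h => hv (mem_union_left _ h)) fun h => hv (mem_union_right _ h)
  have hc : (({u} : Finset α) ∪ Q).card = Q.card + 1 := by
    rw [← insert_eq, card_insert_of_notMem huQ]
  have c1 : g.IsCycleOn (X : Set α) := cyc_congr h.cyc fun v hv => e.2 v
    (fun h => huX (mem_singleton.1 h ▸ hv)) (disjoint_left.1 hd hv)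
  have c2 : ∀ v, v ∉ X → (g ^ a) v = v := fun v hv => by
    by_cases hv' : v ∈ ({u} : Finset α) ∪ Q
    · exact (e.1.pow_apply_eq hv').2 (hc ▸ ha)
    · rw [(pow_agree e.1 ag hv' a).1]
      exact h.per v hv
  refine ⟨⟨c1, c2, ?_⟩, ⟨c1, c2, Or.inr ⟨u, huX, fun m hm => ?_⟩⟩⟩
  · rcases h.wit with h1 | ⟨v, hv, hm⟩
    · exact Or.inl h1
    by_cases hv' : v ∈ ({u} : Finset α) ∪ Q
    · refine Or.inl (Nat.dvd_one.1 (hm 1 ?_))
      rcases mem_union.1 hv' with h2 | h2
      · rw [mem_singleton.1 h2]; simpa using hu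
      · simpa using hq v h2
    · exact Or.inr ⟨v, hv, fun m hh => hm m (by rwa [(pow_agree e.1 ag hv' m).1] at hh)⟩
  · exact hc ▸ (e.1.pow_apply_eq (mem_union_left _ (mem_singleton_self u))).1 hm

theorem Dsc.order {f : Perm α} {X : Finset α} {a E : ℕ} (h : Dsc f X a E) (hX : X.Nonempty)
    (ha : Nat.lcm X.card E = a) : orderOf f = a := by
  obtain ⟨u, hu⟩ := hX
  refine Nat.dvd_antisymm (orderOf_dvd_of_pow_eq_one (Equiv.ext fun v => ?_)) ?_
  · by_cases hv : v ∈ X
    · exact (h.cyc.pow_apply_eq hv).2 (ha ▸ Nat.dvd_lcm_left _ _)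
    · exact h.per v hv
  · rw [← ha]
    refine Nat.lcm_dvd ((h.cyc.pow_apply_eq hu).1 (by simp [pow_orderOf_eq_one])) ?_
    rcases h.wit with h1 | ⟨v, -, hm⟩
    · simp [h1]
    · exact hm _ (by simp [pow_orderOf_eq_one])

end Pool.Agent.Lib.MP_bdfe25_al.SS
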