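import Pool.Agent.Lib.MP_bdfe25_al.SS.TB

/-! A two-cycle for `z`, greedy growth, and the families without a full cycle. -/

namespace Pool.Agent.Lib.MP_bdfe25_al.SS

open Equiv Equiv.Perm Finset

variable {n a b c A B E N p q r fx fy : ℕ} {e d : ℤˣ}

theorem St.pq (h : St n a b c A B E N p q r fx fy e d) (hm : N + 2 ≤ n) (hc : 2 ∣ c) :
    St n a b c A B 2 (N + 2) (p + 2) (q + 1) r fx fy e (-d) := by
  obtain ⟨s, h1, h2, h3, h4, h5, h6, h7, h8⟩ := h
  obtain ⟨Q, hQ, hd⟩ := fresh s.U (m := 2) (by omega)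
  obtain ⟨u, w, huw, rfl⟩ := card_eq_two.1 hQ
  have hu : u ∉ s.U := disjoint_right.1 hd (by simp)
  have hw : w ∉ s.U := disjoint_right.1 hd (by simp)
  have nu : ∀ v ∈ s.U, v ∉ ({u} : Finset (Fin n)) := fun v hv h => hu (mem_singleton.1 h ▸ hv)
  have nw : ∀ v ∈ s.U, v ∉ ({w} : Finset (Fin n)) := fun v hv h => hw (mem_singleton.1 h ▸ hv)
  have du : ∀ S ⊆ s.U, Disjoint S {u} := fun S hS => disjoint_left.2 fun v hv => nu v (hS hv)
  have dw : ∀ S ⊆ s.U, Disjoint S {w} := fun S hS => disjoint_left.2 fun v hv => nw v (hS hv)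
  obtain ⟨x1, y1, g1, g2, g3, g4, g5⟩ := pair s.x s.y s.o {u} (nu _ (s.sx s.ox))
    (by simpa using (s.fix u hu).1) (by simpa using (s.fix u hu).2.1)
  have ex := g4 s.X s.dx.cyc s.ox (du _ s.sx)
  have ey := g5 s.Y s.dy.cyc s.oy (du _ s.sy)
  have hx1w : x1 w = w :=
    (ex.2 w (fun h => hw (s.sx h)) (by simpa using huw.symm)).trans (s.fix w hw).1
  have dx1 := s.dx.grow (by simpa using (s.fix u hu).1) ex
  obtain ⟨z2, x2, k1, -, k3, k4, k5⟩ := pair s.z x1 u {w} (by simpa using huw)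
    (by simpa using (s.fix w hw).2.2) (by simpa using hx1w)
  have dXw : Disjoint (s.X ∪ {u}) {w} := by
    rw [disjoint_union_left]
    exact ⟨dw _ s.sx, by simpa using huw⟩
  have ez := k4 {u} (by simpa using (s.fix u hu).2.2) (mem_singleton_self u)
    (by simpa using huw)
  have ex2 := k5 (s.X ∪ {u}) dx1.cyc (by simp) dXw
  have hmul : x2 * y1 * z2 = 1 :=
    rot3 (rot3 (by rw [k1]; exact rot3 (by rw [g1]; exact s.mul)))
  have hx2 : ∀ v, v ∉ s.X → v ≠ u → v ≠ w → x2 v = s.x v := fun v a1 a2 a3 =>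
    (ex2.2 v (by simp [a1, a2]) (by simpa using a3)).trans (ex.2 v a1 (by simpa using a2))
  refine ⟨⟨x2, y1, z2, s.X ∪ {u} ∪ {w}, s.Y ∪ {u}, s.Z, s.U ∪ {u, w}, s.Fx, s.Fy, s.o, hmul,
    dx1.grow (by simpa using hx1w) ex2, s.dy.grow (by simpa using (s.fix u hu).2.1) ey,
    (s.dz.new (by simpa using (s.fix w hw).2.2) (s.fix u hu).2.2 (fun h => hu (s.sz h))
      (by simpa using huw) (dw _ s.sz) ez (by simpa using hc)).2,
    by simp [s.ox], by simp [s.oy], s.oz, fun v hv => ?_, fun v hv => ?_,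
    s.sz.trans subset_union_left, fun v hv => ?_, fun v hv => ?_, fun v hv => ?_⟩,
    ?_, ?_, ?_, h4, h5, h6, ?_, ?_⟩
  · simp only [mem_union, mem_singleton, mem_insert] at hv ⊢
    rcases hv with (hv | hv) | hv
    · exact Or.inl (s.sx hv)
    · exact Or.inr (Or.inl hv)
    · exact Or.inr (Or.inr hv)
  · simp only [mem_union, mem_singleton, mem_insert] at hv ⊢
    rcases hv with hv | hv
    · exact Or.inl (s.sy hv)
    · exact Or.inr (Or.inl hv)
  · simp only [mem_union, mem_singleton, mem_insert, not_or] at hv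
    obtain ⟨a1, a2, a3⟩ := hv
    exact ⟨(hx2 v (fun h => a1 (s.sx h)) a2 a3).trans (s.fix v a1).1,
      (ey.2 v (fun h => a1 (s.sy h)) (by simpa using a2)).trans (s.fix v a1).2.1,
      (ez.2 v (by simpa using a2) (by simpa using a3)).trans (s.fix v a1).2.2⟩
  · obtain ⟨a1, a2, a3⟩ := s.f1 v hv
    have a4 : v ≠ u := fun h => hu (h ▸ s.sz a1)
    have a5 : v ≠ w := fun h => hw (h ▸ s.sz a1)
    exact ⟨a1, by simp [a2, a4, a5], (hx2 v a2 a4 a5).trans a3⟩
  · obtain ⟨a1, a2, a3⟩ := s.f2 v hv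
    have a4 : v ≠ u := fun h => hu (h ▸ s.sz a1)
    exact ⟨a1, by simp [a2, a4], (ey.2 v a2 (by simpa using a4)).trans a3⟩
  · simp only [card_union_of_disjoint hd, h1, hQ]
  · simp only [card_union_of_disjoint dXw, card_union_of_disjoint (du _ s.sx), h2,
      card_singleton]
  · simp only [card_union_of_disjoint (du _ s.sy), h3, card_singleton]
  · simp [k3, g2, h7]
  · simp [g3, h8]

theorem St.greedy {i j : ℕ} (ha : i + 1 ∣ a) (hb : j + 1 ∣ b) (hi : 0 < i) (hj : 0 < j) :
    ∀ (K I J : ℕ), I + J = K → ∀ {N r fx fy : ℕ} {e d : ℤˣ},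
      St n a b c A B E N p q r fx fy e d → I ≤ fx + J * j → J ≤ fy + I * i → 0 < fx + fy →
      N + (I * i + J * j) ≤ n →
      ∃ fx' fy' e' d',
        St n a b c A B E (N + (I * i + J * j)) p q (r + (I * i + J * j)) fx' fy' e' d' := by
  intro K
  induction K with
  | zero =>
    intro I J hK N r fx fy e d h _ _ _ _
    obtain ⟨rfl, rfl⟩ : I = 0 ∧ J = 0 := by omega
    exact ⟨fx, fy, e, d, by simpa using h⟩
  | succ K ih =>
    intro I J hK N r fx fy e d h h1 h2 h3 h4
    by_cases c1 : 0 < I ∧ 0 < fx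
    · obtain ⟨I, rfl⟩ : ∃ I', I = I' + 1 := ⟨I - 1, by omega⟩
      obtain ⟨fx, rfl⟩ : ∃ f', fx = f' + 1 := ⟨fx - 1, by omega⟩
      have e1 : (I + 1) * i = I * i + i := by ring
      rw [e1] at h2 h4 ⊢
      have := ih I J (by omega) (h.newX i (by omega) ha) (by omega) (by omega) (by omega)
        (by omega)
      rwa [show N + i + (I * i + J * j) = N + (I * i + i + J * j) by ring,
        show r + i + (I * i + J * j) = r + (I * i + i + J * j) by ring] at this
    · have c2 : 0 < J ∧ 0 < fy := by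
        rcases Nat.eq_zero_or_pos I with rfl | hI
        · simp only [zero_mul] at h2
          omega
        · have : fx = 0 := by omega
          rcases Nat.eq_zero_or_pos J with rfl | hJ
          · simp only [zero_mul] at h1
            omega
          · omega
      obtain ⟨J, rfl⟩ : ∃ J', J = J' + 1 := ⟨J - 1, by omega⟩
      obtain ⟨fy, rfl⟩ : ∃ f', fy = f' + 1 := ⟨fy - 1, by omega⟩
      have e1 : (J + 1) * j = J * j + j := by ring
      rw [e1] at h1 h4 ⊢
      have := ih I J (by omega) (h.newY j (by omega) hb) (by omega) (by omega) (by omega)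
        (by omega)
      rwa [show N + j + (I * i + J * j) = N + (I * i + (J * j + j)) by ring,
        show r + j + (I * i + J * j) = r + (I * i + (J * j + j)) by ring] at this

/-- Writing `D = t + I * i + m * (i + j)` with `1 ≤ t ≤ i` and `t + I * i ≤ i + j`. -/
theorem window {i j D : ℕ} (hi : 0 < i) (hD : 0 < D) :
    ∃ t I m, 1 ≤ t ∧ t ≤ i ∧ t + I * i ≤ i + j ∧ D = t + I * i + m * (i + j) := by
  have h1 := Nat.div_add_mod (D - 1) (i + j)
  have h2 := Nat.mod_lt (D - 1) (show 0 < i + j by omega)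
  have h3 := Nat.div_add_mod ((D - 1) % (i + j)) i
  have h4 := Nat.mod_lt ((D - 1) % (i + j)) hi
  refine ⟨(D - 1) % (i + j) % i + 1, (D - 1) % (i + j) / i, (D - 1) / (i + j), by omega,
    by omega, ?_, ?_⟩
  · rw [mul_comm]; omega
  · rw [mul_comm _ i, mul_comm _ (i + j)]; omega

/-- Two odd orders and an even one that is at least the larger odd order minus one. -/
theorem L2 (ha : Odd a) (h3 : 3 ≤ a) (hb : Odd b) (hab : a ≤ b) (hc : Even c) (hbc : b ≤ c + 1) :
    R (c + 2) a b c := by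
  obtain ⟨i, rfl⟩ : ∃ i, a = i + 1 := ⟨a - 1, by omega⟩
  obtain ⟨j, rfl⟩ : ∃ j, b = j + 1 := ⟨b - 1, by omega⟩
  obtain ⟨t, I, m, t1, t2, t3, t4⟩ := window (i := i) (j := j) (D := c + 1 - j) (by omega)
    (by omega)
  have hi : Even i := by simpa [Nat.odd_add_one] using ha
  have hj : Even j := by simpa [Nat.odd_add_one] using hb
  have ht : Odd t := by
    have e1 : Even (I * i) := hi.mul_left I
    have e2 : Even (m * (i + j)) := (hi.add hj).mul_left m
    rw [Nat.even_iff] at e1 e2 hc hj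
    rw [Nat.odd_iff]; omega
  have hti : t < i := by
    rw [Nat.even_iff] at hi
    rw [Nat.odd_iff] at ht
    omega
  have hk : Odd (i - t) := Nat.Even.sub_odd hti.le hi ht
  have hI : I ≤ j - i + t := by
    by_contra hh
    have : (j - i + t + 1) * i ≤ I * i := Nat.mul_le_mul_right _ (by omega)
    have e1 : (j - i + t + 1) * i = (j - i) * i + t * i + i := by ring
    have e2 : j - i ≤ (j - i) * i := Nat.le_mul_of_pos_right _ (by omega)
    have e3 : 1 * i ≤ t * i := Nat.mul_le_mul_right _ t1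
    omega
  have e4 : m * (i + j) = m * i + m * j := by ring
  have e5 : (I + m) * i = I * i + m * i := by ring
  have e6 : m ≤ m * j := Nat.le_mul_of_pos_right _ (by omega)
  have e7 : m ≤ m * i := Nat.le_mul_of_pos_right _ (by omega)
  have s1 := (((St.core (n := c + 2) (a := i + 1) (b := j + 1) (c := c) hk (by omega)).insZX
    (t - 1) (by omega)).insYZ (j - i + t) (by omega)).pq (by omega) hc.two_dvd
  obtain ⟨_, _, _, _, s2⟩ := St.greedy dvd_rfl dvd_rfl (by omega) (by omega) _ (I + m) m rfl s1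
    (by omega) (by omega) (by omega) (by omega)
  exact (s2.fin (by omega) (by omega) (by omega) (Nat.lcm_eq_left hc.two_dvd)).r

/-- Three equal even orders, two odd permutations. -/
theorem L4 (hc : Even c) (h4 : 4 ≤ c) : RS (c + 2) c c c (-1) (-1) := by
  have hk : Odd (c - 3) := Nat.Even.sub_odd (by omega) hc (by decide)
  have s1 := (((St.core (n := c + 2) (a := c) (b := c) (c := c) hk (by omega)).insZX
    1 (by omega)).insYZ 2 (by omega)).pq (by omega) hc.two_dvd
  simpa using s1.fin (by omega) (by omega) (by omega) (Nat.lcm_eq_left hc.two_dvd)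

/-- The orders `a`, `r + 2`, `2 r` on `r + 4` points. -/
theorem L7 (ha : Odd a) (h3 : 3 ≤ a) (hr : Odd r) (har : a ≤ r + 2) (h5 : 5 ≤ a ∨ 5 ≤ r) :
    R (r + 4) a (r + 2) (2 * r) := by
  have hl : Nat.lcm r 2 = 2 * r := by
    rw [Nat.Coprime.lcm_eq_mul (by simpa using hr), mul_comm]
  have h2 : 2 ∣ 2 * r := dvd_mul_right _ _
  rcases Nat.lt_or_ge a 5 with h | h
  · obtain rfl : a = 3 := by
      rw [Nat.odd_iff] at ha; omega
    have h6 : 5 ≤ r := by omega
    have s1 := (((St.core (n := r + 4) (a := 3) (b := r + 2) (c := 2 * r) odd_one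
      (by omega)).mirror.pq (by omega) h2).pq (by omega) h2).mirror.insYZ (r - 3) (by omega)
    rw [show 0 + (r - 3) = r - 4 + 1 by omega] at s1
    have s2 := s1.newX 2 (by omega) dvd_rfl
    exact (s2.fin (by omega) (by omega) (by omega) hl).r
  · have hk : Odd (a - 4) := Nat.Odd.sub_even (by omega) ha (by decide)
    have s1 := ((((St.core (n := r + 4) (a := a) (b := r + 2) (c := 2 * r) hk
      (by omega)).mirror.pq (by omega) h2).pq (by omega) h2).mirror.insZX 2
      (by omega)).insYZ (r + 2 - a) (by omega)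
    exact (s1.fin (by omega) (by omega) (by omega) hl).r

end Pool.Agent.Lib.MP_bdfe25_al.SS
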