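import Pool.Agent.Lib.MP_bdfe25_al.SS.TC

/-! Splitting a cycle off, and the families with a full cycle. -/

namespace Pool.Agent.Lib.MP_bdfe25_al.SS

open Equiv Equiv.Perm Finset

section

set_option linter.unusedSectionVars false

variable {α : Type} [Fintype α] [DecidableEq α]

theorem orbit_cyc (g : Perm α) (u : α) {L : ℕ} (hL : 0 < L) (h1 : (g ^ L) u = u)
    (h2 : ∀ j, 0 < j → j < L → (g ^ j) u ≠ u) :
    ∃ T : Finset α, g.IsCycleOn (T : Set α) ∧ T.card = L ∧ ∀ v, v ∈ T ↔ ∃ j < L, (g ^ j) u = v := by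
  have hmem : ∀ v, v ∈ (range L).image (fun j => (g ^ j) u) ↔ ∃ j < L, (g ^ j) u = v := by
    simp
  have hu := (hmem u).2 ⟨0, hL, rfl⟩
  have hc : g.IsCycleOn (((range L).image fun j => (g ^ j) u : Finset α) : Set α) := by
    refine cyc_of (fun v hv => ?_) (u := u) fun v hv => ?_
    · obtain ⟨j, hj, rfl⟩ := (hmem v).1 hv
      rw [← Perm.mul_apply, ← pow_succ']
      rcases Nat.lt_or_ge (j + 1) L with h | h
      · exact (hmem _).2 ⟨j + 1, h, rfl⟩
      · rw [show j + 1 = L by omega, h1]; exact hu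
    · obtain ⟨j, -, rfl⟩ := (hmem v).1 hv
      exact ⟨j, by simp⟩
  refine ⟨_, hc, ?_, hmem⟩
  have h3 := Nat.le_of_dvd hL ((hc.pow_apply_eq hu).1 h1)
  by_contra h4
  exact h2 _ (card_pos.2 ⟨u, hu⟩) (lt_of_le_of_ne h3 h4) (hc.pow_card_apply hu)

theorem split {f : Perm α} {S : Finset α} (hf : f.IsCycleOn (S : Set α)) {u p : α} (hu : u ∈ S)
    (hp : p ∉ S) (hfp : f p = p) {l : ℕ} (h1 : 1 ≤ l) (h2 : l ≤ S.card) {g : Perm α}
    (hg : g = swap ((f ^ l) u) p * f * swap u p) :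
    ∃ T ⊆ S, u ∈ T ∧ T.card + l = S.card + 1 ∧ g.IsCycleOn (T : Set α) ∧
      (∀ v, v ∉ S → v ≠ p → g v = f v) ∧ (∀ v ∈ insert p S, v ∉ T → (g ^ l) v = v) ∧
      ∀ m, (g ^ m) p = p → l ∣ m := by
  have he : ∀ i : ℕ, (f ^ i) u ∈ S := fun i => hf.1.mapsTo.perm_pow i hu
  have hep : ∀ i : ℕ, (f ^ i) u ≠ p := fun i h => hp (h ▸ he i)
  have hne : ∀ i j : ℕ, i < j → j < i + S.card → (f ^ i) u ≠ (f ^ j) u := fun i j a1 a2 h => by
    have h3 := (Nat.modEq_iff_dvd' a1.le).1 ((hf.pow_apply_eq_pow_apply hu).1 h)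
    have := Nat.le_of_dvd (by omega) h3
    omega
  have hstep : ∀ i : ℕ, 0 < i → i < S.card →
      g ((f ^ i) u) = swap ((f ^ l) u) p ((f ^ (i + 1)) u) := fun i a1 a2 => by
    have := hne 0 i a1 (by omega)
    rw [hg, Perm.mul_apply, Perm.mul_apply, swap_apply_of_ne_of_ne (by simpa using this.symm)
      (hep i), pow_succ', Perm.mul_apply]
  have hA : ∀ i : ℕ, 1 ≤ i → i ≤ l → (g ^ i) p = swap ((f ^ l) u) p ((f ^ i) u) := by
    intro i a1
    induction i, a1 using Nat.le_induction with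
    | base => intro _; simp [hg]
    | succ i a1 ih =>
      intro a2
      rw [pow_succ', Perm.mul_apply, ih (by omega),
        swap_apply_of_ne_of_ne (hne i l (by omega) (by omega)) (hep i), hstep i a1 (by omega)]
  have hA' : ∀ i : ℕ, 1 ≤ i → i < l → (g ^ i) p = (f ^ i) u := fun i a1 a2 => by
    rw [hA i a1 a2.le, swap_apply_of_ne_of_ne (hne i l a2 (by omega)) (hep i)]
  have hl : (g ^ l) p = p := by rw [hA l h1 le_rfl, swap_apply_left]
  have hB : ∀ j : ℕ, l + j ≤ S.card → (g ^ (j + 1)) u = (f ^ (l + j)) u := by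
    intro j
    induction j with
    | zero => intro _; simp [hg, hfp]
    | succ j ih =>
      intro a2
      rw [pow_succ', Perm.mul_apply, ih (by omega), hstep _ (by omega) (by omega),
        swap_apply_of_ne_of_ne (hne l (l + j + 1) (by omega) (by omega)).symm (hep _), add_assoc]
  obtain ⟨T, t1, t2, t3⟩ := orbit_cyc g u (L := S.card - l + 1) (by omega)
    (by rw [hB _ (by omega), show l + (S.card - l) = S.card by omega, hf.pow_card_apply hu])
    fun j a1 a2 => by
      obtain ⟨j, rfl⟩ : ∃ j', j = j' + 1 := ⟨j - 1, by omega⟩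
      rw [hB j (by omega)]
      simpa using (hne 0 (l + j) (by omega) (by omega)).symm
  obtain ⟨P, p1, p2, p3⟩ := orbit_cyc g p (L := l) (by omega) hl
    fun j a1 a2 => by rw [hA' j a1 a2]; exact hep j
  have hT : u ∈ T := (t3 u).2 ⟨0, by omega, rfl⟩
  refine ⟨T, fun v hv => ?_, hT, by omega, t1, fun v a1 a2 => ?_, fun v a1 a2 => ?_,
    fun m hm => p2 ▸ (p1.pow_apply_eq ((p3 p).2 ⟨0, by omega, rfl⟩)).1 hm⟩
  · obtain ⟨j, hj, rfl⟩ := (t3 v).1 hv
    rcases j with _ | j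
    · exact hu
    · rw [hB j (by omega)]; exact he _
  · have a3 : f v ∉ S := fun h => a1 ((cyc_mem hf).1 h)
    have a4 : v ≠ u := fun h => a1 (h ▸ hu)
    have a5 : f v ≠ (f ^ l) u := fun h => a3 (h ▸ he l)
    have a6 : f v ≠ p := fun h => a2 (f.injective (h.trans hfp.symm))
    rw [hg, Perm.mul_apply, Perm.mul_apply, swap_apply_of_ne_of_ne a4 a2,
      swap_apply_of_ne_of_ne a5 a6]
  · rcases mem_insert.1 a1 with rfl | a1
    · exact hl
    obtain ⟨i, hi, rfl⟩ := hf.exists_pow_eq hu a1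
    rcases Nat.eq_zero_or_pos i with rfl | a3
    · exact absurd hT a2
    rcases Nat.lt_or_ge i l with a4 | a4
    · exact (p1.pow_apply_eq ((p3 _).2 ⟨i, a4, hA' i a3 a4⟩)).2 (p2 ▸ dvd_rfl)
    · refine absurd ((t3 _).2 ⟨i - l + 1, by omega, ?_⟩) a2
      rw [hB _ (by omega), show l + (i - l) = i by omega]

theorem Dsc.split {f : Perm α} {X : Finset α} {a E : ℕ} (h : Dsc f X a E) {u p : α} (hu : u ∈ X)
    (hp : p ∉ X) (hfp : f p = p) {l : ℕ} (h1 : 1 ≤ l) (h2 : l ≤ X.card) (ha : l ∣ a)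
    {g : Perm α} (hg : g = swap ((f ^ l) u) p * f * swap u p) :
    ∃ T ⊆ X, u ∈ T ∧ T.card + l = X.card + 1 ∧ Dsc g T a E ∧ Dsc g T a l ∧
      ∀ v, v ∉ X → v ≠ p → g v = f v := by
  obtain ⟨T, t1, t2, t3, t4, t5, t6, t7⟩ := SS.split h.cyc hu hp hfp h1 h2 hg
  have ag : ∀ v, v ∉ X → v ≠ p → ∀ m : ℕ,
      (g ^ m) v = (f ^ m) v ∧ (f ^ m) v ∉ X ∧ (f ^ m) v ≠ p := fun v a1 a2 m => by
    induction m with
    | zero => exact ⟨rfl, a1, a2⟩
    | succ m ih =>
      rw [pow_succ', pow_succ', Perm.mul_apply, Perm.mul_apply, ih.1]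
      exact ⟨t5 _ ih.2.1 ih.2.2, fun k => ih.2.1 ((cyc_mem h.cyc).1 k),
        fun k => ih.2.2 (f.injective (k.trans hfp.symm))⟩
  have c2 : ∀ v, v ∉ T → (g ^ a) v = v := fun v hv => by
    by_cases hv' : v ∈ insert p X
    · obtain ⟨k, rfl⟩ := ha
      rw [pow_mul]
      exact pow_apply_eq_self_of_apply_eq_self (t6 v hv' hv) k
    · rw [mem_insert, not_or] at hv'
      rw [(ag v hv'.2 hv'.1 a).1]
      exact h.per v hv'.2
  refine ⟨T, t1, t2, t3, ⟨t4, c2, ?_⟩, ⟨t4, c2, Or.inr ⟨p, fun k => hp (t1 k), t7⟩⟩, t5⟩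
  rcases h.wit with k1 | ⟨v, hv, hm⟩
  · exact Or.inl k1
  by_cases hvp : v = p
  · exact Or.inl (Nat.dvd_one.1 (hm 1 (by simpa [hvp] using hfp)))
  · exact Or.inr ⟨v, fun k => hv (t1 k), fun m k => hm m (by rwa [(ag v hv hvp m).1] at k)⟩

theorem ext_left {f : Perm α} {S : Finset α} (hf : f.IsCycleOn (S : Set α)) {u p : α}
    (hu : u ∈ S) (hp : p ∉ S) (hfp : f p = p) : Ext f (swap u p * f) S {p} := by
  refine ⟨by simpa [union_comm, ← insert_eq] using ins_one hf hu hp hfp, fun v a1 a2 => ?_⟩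
  have a3 : f v ≠ u := fun h => a1 ((cyc_mem hf).1 (h ▸ hu))
  have a4 : f v ≠ p := fun h => a2 (mem_singleton.2 (f.injective (h.trans hfp.symm)))
  rw [Perm.mul_apply, swap_apply_of_ne_of_ne a3 a4]

theorem ext_right {f : Perm α} {S : Finset α} (hf : f.IsCycleOn (S : Set α)) {u p : α}
    (hu : u ∈ S) (hp : p ∉ S) (hfp : f p = p) : Ext f (f * swap u p) S {p} := by
  refine ⟨?_, fun v a1 a2 => ?_⟩
  · have := (ext_left hf.inv hu hp (by rw [Perm.inv_eq_iff_eq, hfp])).1.inv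
    simpa using this
  · have a3 : v ≠ u := fun h => a1 (h ▸ hu)
    rw [Perm.mul_apply, swap_apply_of_ne_of_ne a3 (by simpa using a2)]

end

variable {n a b c A B E N p q r fx fy : ℕ} {e d : ℤˣ}

theorem St.dX (h : St n a b c A B E N p q N fx fy e d) {l p' : ℕ} (hm : N + 1 ≤ n) (h1 : 1 ≤ l)
    (hp : p' + l = p + 1) (hp' : 0 < p') (ha : l ∣ a) :
    St n a b c A B E (N + 1) p' (q + 1) (N + 1) fx fy e (-d) ∧
      St n a b c l B E (N + 1) p' (q + 1) (N + 1) fx fy e (-d) := by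
  obtain ⟨s, k1, k2, k3, k4, k5, k6, k7, k8⟩ := h
  obtain ⟨Q, hQ, hd⟩ := fresh s.U (m := 1) (by omega)
  obtain ⟨v, rfl⟩ := card_eq_one.1 hQ
  have hv : v ∉ s.U := disjoint_right.1 hd (by simp)
  have hZ : s.Z = s.U := eq_of_subset_of_card_le s.sz (by omega)
  have hw : (s.x ^ l) s.o ∈ s.Z := hZ ▸ s.sx (s.dx.cyc.1.mapsTo.perm_pow l s.ox)
  have du : ∀ S ⊆ s.U, Disjoint S {v} := fun S hS => hd.mono_left hS
  obtain ⟨T, t1, t2, t3, t4, t5, t6⟩ := s.dx.split s.ox (fun k => hv (s.sx k)) (s.fix v hv).1 h1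
    (by omega) ha rfl
  have ey := ext_left s.dy.cyc s.oy (fun k => hv (s.sy k)) (s.fix v hv).2.1
  have ez := ext_right s.dz.cyc hw (fun k => hv (s.sz k)) (s.fix v hv).2.2
  have hov : s.o ≠ v := fun k => hv (k ▸ s.sx s.ox)
  have hwv : (s.x ^ l) s.o ≠ v := fun k => hv (k ▸ s.sz hw)
  have key : ∀ A', Dsc (swap ((s.x ^ l) s.o) v * s.x * swap s.o v) T a A' →
      St n a b c A' B E (N + 1) p' (q + 1) (N + 1) fx fy e (-d) := fun A' hA => by
    refine ⟨⟨_, swap s.o v * s.y, s.z * swap ((s.x ^ l) s.o) v, T, s.Y ∪ {v}, s.Z ∪ {v},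
      s.U ∪ {v}, s.Fx, s.Fy, s.o, ?_, hA, s.dy.grow (by simpa using (s.fix v hv).2.1) ey,
      s.dz.grow (by simpa using (s.fix v hv).2.2) ez, t2, mem_union_left _ s.oy,
      mem_union_left _ s.oz, (t1.trans s.sx).trans subset_union_left,
      union_subset_union_left s.sy, union_subset_union_left s.sz, fun u hu => ?_,
      fun u hu => ?_, fun u hu => ?_⟩, ?_, ?_, ?_, ?_, k5, k6, ?_, ?_⟩
    · have : ∀ S W : Perm (Fin n), S * S = 1 → W * W = 1 →
          W * s.x * S * (S * s.y) * (s.z * W) = 1 := fun S W a1 a2 => by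
        have : W * s.x * S * (S * s.y) * (s.z * W) = W * (s.x * (S * S) * s.y * s.z) * W := by
          simp only [mul_assoc]
        rw [this, a1, mul_one, s.mul, mul_one, a2]
      exact this _ _ (swap_mul_self _ _) (swap_mul_self _ _)
    · rw [mem_union, not_or] at hu
      exact ⟨(t6 u (fun k => hu.1 (s.sx k)) (by simpa using hu.2)).trans (s.fix u hu.1).1,
        (ey.2 u (fun k => hu.1 (s.sy k)) hu.2).trans (s.fix u hu.1).2.1,
        (ez.2 u (fun k => hu.1 (s.sz k)) hu.2).trans (s.fix u hu.1).2.2⟩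
    · obtain ⟨a1, a2, a3⟩ := s.f1 u hu
      exact ⟨mem_union_left _ a1, fun k => a2 (t1 k),
        (t6 u a2 fun k => hv (k ▸ s.sz a1)).trans a3⟩
    · obtain ⟨a1, a2, a3⟩ := s.f2 u hu
      have a4 : u ≠ v := fun k => hv (k ▸ s.sz a1)
      exact ⟨mem_union_left _ a1, by simp [a2, a4], (ey.2 u a2 (by simpa using a4)).trans a3⟩
    · simp only [card_union_of_disjoint hd, k1, card_singleton]
    · simp only; omega
    · simp only [card_union_of_disjoint (du _ s.sy), k3, card_singleton]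
    · simp only [card_union_of_disjoint (du _ s.sz), k4, card_singleton]
    · simp [sign_swap hov, sign_swap hwv, k7]
    · simp [sign_swap hov, k8]
  exact ⟨key _ t4, key _ t5⟩

/-- An even order and twice a larger order. -/
theorem L3 (ha : Even a) (h2 : 2 ≤ a) (hc : a + 2 ≤ c) : R c a c c := by
  have s1 := ((St.core (n := c) (a := a) (b := c) (c := c) ha.add_one (by omega)).dX (l := 2)
    (p' := a) (by omega) (by omega) (by omega) (by omega) ha.two_dvd).1.insYZ (c - a - 2)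
    (by omega)
  exact (s1.fin rfl (by omega) (by omega) (Nat.lcm_one_right c)).r

theorem grow {i j I m : ℕ} (h : St n (i + 1) (j + 1) c 1 1 1 N (i + 1) (j + 1) N fx fy e d)
    (hi : 0 < i) (hj : 0 < j) (hI : I ≤ fx) (h0 : 0 < fx + fy)
    (hc : N + (I * i + m * (i + j)) = c) (hn : c ≤ n) : R n (i + 1) (j + 1) c := by
  have e4 : m * (i + j) = m * i + m * j := by ring
  have e5 : (I + m) * i = I * i + m * i := by ring
  have e6 : m ≤ m * j := Nat.le_mul_of_pos_right _ hj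
  have e7 : m ≤ m * i := Nat.le_mul_of_pos_right _ hi
  obtain ⟨_, _, _, _, s2⟩ := St.greedy dvd_rfl dvd_rfl hi hj _ (I + m) m rfl h
    (by omega) (by omega) h0 (by omega)
  exact (s2.fin rfl rfl (by omega) (Nat.lcm_one_right c)).r

/-- The triples in which the largest order is that of a full cycle. -/
theorem L1 (h2 : 2 ≤ a) (hab : a ≤ b) (hbc : b ≤ c)
    (h : (Odd a ∧ b = c) ∨ (Odd a ∧ Odd b ∧ Odd c) ∨ (Odd a ∧ Even b ∧ b + 2 ≤ c) ∨
      (Even a ∧ b + 1 ≤ c)) : R c a b c := by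
  by_cases h0 : b = c
  · subst h0
    have ha : Odd a := by
      rcases h with h | h | h | h
      exacts [h.1, h.1, h.1, by omega]
    have s1 := (St.core (n := b) (a := a) (b := b) (c := b) ha hab).insYZ (b - a) (by omega)
    exact (s1.fin rfl (by omega) (by omega) (Nat.lcm_one_right b)).r
  obtain ⟨i, rfl⟩ : ∃ i, a = i + 1 := ⟨a - 1, by omega⟩
  obtain ⟨j, rfl⟩ : ∃ j, b = j + 1 := ⟨b - 1, by omega⟩
  have base : ∀ t, t ≤ i → Odd (i + 1 - t) → j + 1 + t ≤ c → ∃ e d,
      St c (i + 1) (j + 1) c 1 1 1 (j + 1 + t) (i + 1) (j + 1) (j + 1 + t) (j - i + t) t e d :=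
    fun t a1 a2 a3 => by
    have s1 := ((St.core (n := c) (a := i + 1) (b := j + 1) (c := c) a2 (by omega)).insZX t
      (by omega)).insYZ (j - i + t) (by omega)
    rw [show i + 1 - t + t = i + 1 by omega, show i + 1 + (j - i + t) = j + 1 + t by omega,
      show i + 1 - t + (j - i + t) = j + 1 by omega, zero_add, zero_add] at s1
    exact ⟨_, _, s1⟩
  have bound : ∀ I u v : ℕ, u + v ≤ I → u + v * i ≤ I * i := fun I u v k => by
    have k1 : (u + v) * i ≤ I * i := Nat.mul_le_mul_right _ k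
    have k2 : u ≤ u * i := Nat.le_mul_of_pos_right _ (by omega)
    have k3 : (u + v) * i = u * i + v * i := by ring
    omega
  simp only [Nat.odd_iff, Nat.even_iff] at h base
  rcases Nat.mod_two_eq_zero_or_one i with hi | hi
  · obtain ⟨t, I, m, t1, t2, t3, t4⟩ := window (i := i) (j := j) (D := c - j - 2) (by omega)
      (by omega)
    have b1 := bound I (j - i) 2
    rcases Nat.mod_two_eq_zero_or_one t with ht | ht
    · have hj : 2 ∣ j + 1 := by
        by_contra hj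
        have e1 : Even (I * i) := (Nat.even_iff.2 hi).mul_left I
        have e2 : Even (m * (i + j)) := (Nat.even_iff.2 (by omega)).mul_left m
        rw [Nat.even_iff] at e1 e2
        omega
      obtain ⟨_, _, s1⟩ := base t t2 (by omega) (by omega)
      obtain ⟨t, rfl⟩ : ∃ t', t = t' + 1 := ⟨t - 1, by omega⟩
      exact grow (I := I) (m := m) (s1.newY 1 (by omega) hj) (by omega) (by omega) (by omega)
        (by omega) (by omega) le_rfl
    · obtain ⟨_, _, s1⟩ := base (t + 1) (by omega) (by omega) (by omega)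
      exact grow (I := I) (m := m) s1 (by omega) (by omega) (by omega) (by omega) (by omega)
        le_rfl
  · obtain ⟨t, I, m, t1, t2, t3, t4⟩ := window (i := i) (j := j) (D := c - j - 1) (by omega)
      (by omega)
    have b1 := bound I (j - i) 2
    rcases Nat.mod_two_eq_zero_or_one t with ht | ht
    · obtain ⟨t, rfl⟩ : ∃ t', t = t' + 2 := ⟨t - 2, by omega⟩
      obtain ⟨_, _, s1⟩ := base (t + 1) (by omega) (by omega) (by omega)
      rcases Nat.mod_two_eq_zero_or_one j with hj | hj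
      · have b2 := bound I (j - i - 1) 2
        exact grow (I := I) (m := m) (St.newX (fx := j - i + t) s1 1 (by omega) (by omega))
          (by omega) (by omega) (by omega) (by omega) (by omega) le_rfl
      · exact grow (I := I) (m := m) (s1.newY 1 (by omega) (by omega)) (by omega) (by omega)
          (by omega) (by omega) (by omega) le_rfl
    · obtain ⟨_, _, s1⟩ := base t t2 (by omega) (by omega)
      exact grow (I := I) (m := m) s1 (by omega) (by omega) (by omega) (by omega) (by omega)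
        le_rfl

end Pool.Agent.Lib.MP_bdfe25_al.SS
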