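import Pool.Agent.Lib.MP_bdfe25_al.SS.TD

/-! An even permutation of composite even order against a full cycle; sporadic triples. -/

namespace Pool.Agent.Lib.MP_bdfe25_al.SS

open Equiv Equiv.Perm Finset

variable {a r E m N : ℕ}

theorem L5 (ha : Odd a) (h3 : 3 ≤ a) (hN : Odd N) (haN : a ≤ N) (hr : Odd r) (hE : Even E)
    (h2 : 2 ≤ E) (hm : Nat.lcm r E = m) (hle : r + E + 2 ≤ N) : R N m a N := by
  have hEm : E ∣ m := hm ▸ Nat.dvd_lcm_right _ _
  have h2m : 2 ∣ m := hE.two_dvd.trans hEm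
  have hr0 := hr.pos
  obtain ⟨i, rfl⟩ : ∃ i, a = i + 1 := ⟨a - 1, by omega⟩
  have key : ∀ k I J : ℕ, Odd k → k + 1 ≤ i → k ≤ r + E → J ≤ i - 1 - k + I * i →
      I ≤ r + E - k + J → (0 < i - 1 - k + (r + E - k) ∨ I + J = 0) →
      r + E + i + 1 + J + I * i = N + k → R N m (i + 1) N := fun k I J a1 a2 a3 a4 a5 a6 a7 => by
    have s1 := (St.core (n := N) (a := m) (b := i + 1) (c := N) a1 (by omega)).insZX (r + E - k)
      (by omega)
    have s2 := ((s1.dX (l := E) (p' := r + 1) (by omega) (by omega) (by omega) (by omega)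
      hEm).2.dX (l := 2) (p' := r) (by omega) (by omega) (by omega) (by omega) h2m).1.insYZ
      (i - 1 - k) (by omega)
    rcases a6 with a6 | a6
    · obtain ⟨_, _, _, _, s3⟩ := St.greedy (i := 1) (j := i) h2m dvd_rfl one_pos (by omega) _ J I
        rfl s2 (by omega) (by omega) (by omega) (by omega)
      exact (s3.finish hm (by rw [Nat.lcm_one_right]; omega)
        (by rw [Nat.lcm_one_right]; omega)).r
    · obtain ⟨rfl, rfl⟩ : I = 0 ∧ J = 0 := by omega
      exact (s2.finish hm (by rw [Nat.lcm_one_right]; omega)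
        (by rw [Nat.lcm_one_right]; omega)).r
  rw [Nat.odd_iff] at ha hN hr
  rw [Nat.even_iff] at hE
  obtain ⟨H, hH⟩ : ∃ H, N = r + E + 2 * H := ⟨(N - r - E) / 2, by omega⟩
  rcases Nat.lt_or_ge i (2 * H) with h | h
  · have d1 := Nat.div_add_mod H i
    have d2 := Nat.mod_lt H (show 0 < i by omega)
    rw [mul_comm] at d1
    have d3 : H / i = 0 ∨ (i ≤ H / i * i ∧ H / i + i ≤ H / i * i + 1) := by
      rcases Nat.eq_zero_or_pos (H / i) with k | k
      · exact Or.inl k
      · refine Or.inr ⟨Nat.le_mul_of_pos_left _ k, ?_⟩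
        obtain ⟨u, hu⟩ : ∃ u, H / i = u + 1 := ⟨H / i - 1, by omega⟩
        obtain ⟨v, hv⟩ : ∃ v, i = v + 1 := ⟨i - 1, by omega⟩
        rw [hu, hv]
        nlinarith [Nat.zero_le (u * v)]
    have d4 : H / i = 0 → H / i * i = 0 := fun k => by rw [k, zero_mul]
    exact key 1 (H / i) (2 * H - H / i * i - i) odd_one (by omega) (by omega) (by omega)
      (by omega) (by omega) (by omega)
  · exact key (i + 1 - 2 * H) 0 0 (Nat.odd_iff.2 (by omega)) (by omega) (by omega) (by omega)
      (by omega) (by omega) (by omega)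

theorem ord_of {n k : ℕ} {x : Perm (Fin n)} (hk : 0 < k) (h1 : x ^ k = 1)
    (h2 : ∀ j : Fin k, 0 < j.1 → x ^ j.1 ≠ 1) : orderOf x = k :=
  (orderOf_eq_iff hk).2 ⟨h1, fun j a1 a2 => h2 ⟨j, a1⟩ a2⟩

theorem sp356 : R 7 3 5 6 :=
  ⟨c[0, 4, 1] * c[3, 6, 5], c[1, 5, 2, 6, 4], ord_of (by decide) (by decide +kernel)
    (by decide +kernel), ord_of (by decide) (by decide +kernel) (by decide +kernel),
    ord_of (by decide) (by decide +kernel) (by decide +kernel)⟩

theorem sp3 : R 9 3 7 12 :=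
  ⟨c[0, 2, 1] * c[5, 8, 7], c[0, 2, 3, 5, 4, 6, 8], ord_of (by decide) (by decide +kernel)
    (by decide +kernel), ord_of (by decide) (by decide +kernel) (by decide +kernel),
    ord_of (by decide) (by decide +kernel) (by decide +kernel)⟩

theorem sp5 : R 9 5 7 12 :=
  ⟨c[2, 4, 8, 5, 3], c[0, 2, 1, 3, 7, 4, 6], ord_of (by decide) (by decide +kernel)
    (by decide +kernel), ord_of (by decide) (by decide +kernel) (by decide +kernel),
    ord_of (by decide) (by decide +kernel) (by decide +kernel)⟩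

theorem sp7 : R 9 7 7 12 :=
  ⟨c[0, 6, 4, 7, 8, 1, 5], c[0, 6, 2, 4, 5, 3, 8], ord_of (by decide) (by decide +kernel)
    (by decide +kernel), ord_of (by decide) (by decide +kernel) (by decide +kernel),
    ord_of (by decide) (by decide +kernel) (by decide +kernel)⟩

theorem sp2 : RS 4 2 2 2 (-1) (-1) :=
  ⟨swap 0 1, swap 2 3, ord_of (by decide) (by decide +kernel) (by decide +kernel),
    ord_of (by decide) (by decide +kernel) (by decide +kernel),
    ord_of (by decide) (by decide +kernel) (by decide +kernel), sign_swap (by decide),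
    sign_swap (by decide)⟩

end Pool.Agent.Lib.MP_bdfe25_al.SS
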